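import Pool.Agent.L7h50.AB.D1

set_option autoImplicit false

/-! The main term for the pairs `n`, `(b n + c) / a` in a class modulo `a ^ 2` (adapted from `Pool.Agent.N469.LP.Lin`). -/

namespace Pool.Agent.L7h50.AB
open Finset
open Pool.Agent.H373R2.T7
open Pool.Agent.N469.LP
open Pool.Agent.W93.PP (MT PS mem_PS Cnt MT_sing)
open Pool.Agent.H560R3.GB (sing)

open Classical in
/-- the sum over the primes of a progression outside the classes which are killed by `C n + Y` -/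
theorem core_main (Bc Ez Bq D : ℕ) : ∃ N₀ : ℕ, ∀ N : ℕ, N₀ ≤ N → ∀ z : ℕ, 1 ≤ z → (z : ℝ) ≤ Real.log N ^ Ez →
    ∀ q : ℕ, 1 ≤ q → (q : ℝ) ≤ Real.log N ^ Bq → ∀ x₀ : ℕ, Nat.Coprime x₀ q → ∀ C Y : ℤ, Int.gcd C Y = 1 →
    ∀ t : ℕ, t ≤ Bc * N →
    |(Vz z)⁻¹ * ∑ n ∈ (Icc 1 t).filter (fun n => n ≡ x₀ [MOD q] ∧ ∀ p ∈ TT z q, ¬ AL C Y p (n % p)),
      ArithmeticFunction.vonMangoldt n - MT z q (C * Y).natAbs * t| ≤ N / Real.log N ^ D := by
  obtain ⟨N1, h1⟩ := prog_main 1 (Ez + 1) (Bq + 1) (D + 2) le_rfl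
  obtain ⟨n2, h2⟩ := ev_L' ((2 : ℝ) ^ (Ez + Bq + 4 + D) * (Bc + 1) + 8)
  obtain ⟨n3, h3⟩ := Vz_inv_small Ez
  obtain ⟨n4, h4⟩ := ev_log' (D + 2) 1
  refine ⟨max (max (N1 ^ 2) n2) (max (max n3 n4) 4), fun N hN z hz hzE q hq hqB x₀ hx₀ C Y hg t ht => ?_⟩
  have b1 := le_trans (le_trans (le_max_left _ _) (le_max_left _ _)) hN
  have b2 := le_trans (le_trans (le_max_right _ _) (le_max_left _ _)) hN
  have b3 := le_trans (le_trans (le_trans (le_max_left _ _) (le_max_left _ _)) (le_max_right _ _)) hN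
  have b4 := le_trans (le_trans (le_trans (le_max_right _ _) (le_max_left _ _)) (le_max_right _ _)) hN
  have hN4 : 4 ≤ N := le_trans (le_trans (le_max_right _ _) (le_max_right _ _)) hN
  have hL := h2 N b2
  have hV := h3 N b3 z hz hzE
  have a4 := h4 N b4
  rw [one_mul] at a4
  obtain ⟨L, hLd⟩ : ∃ L, L = Real.log (N : ℝ) := ⟨_, rfl⟩
  rw [← hLd] at hL hV a4 hzE hqB ⊢
  have hp1 : (1 : ℝ) ≤ 2 ^ (Ez + Bq + 4 + D) := one_le_pow₀ (by norm_num)
  have hBc : (0 : ℝ) ≤ Bc := Nat.cast_nonneg _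
  have hBp : (2 : ℝ) ^ (Ez + Bq + 4 + D) ≤ (2 : ℝ) ^ (Ez + Bq + 4 + D) * (Bc + 1) := le_mul_of_one_le_right (by positivity) (by linarith)
  have hL8 : 8 ≤ L := by nlinarith
  have hL1 : 1 ≤ L := by linarith
  have hL0 : 0 < L := by linarith
  have hN0 : (0 : ℝ) < N := by exact_mod_cast (by omega : 0 < N)
  have hss : √(N : ℝ) * √(N : ℝ) = N := Real.mul_self_sqrt hN0.le
  have hs0 : 0 < √(N : ℝ) := Real.sqrt_pos.2 hN0
  have hVp : 0 ≤ (Vz z)⁻¹ := (inv_pos.2 (Vz_pos z)).le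
  have hφ : (1 : ℝ) ≤ Nat.totient q := by exact_mod_cast Nat.totient_pos.2 hq
  have hMT0 : 0 ≤ MT z q (C * Y).natAbs ∧ MT z q (C * Y).natAbs ≤ (Vz z)⁻¹ := by
    unfold MT
    have hh : ∀ p ∈ PS z q (C * Y).natAbs, 0 ≤ 1 - 1 / ((p : ℝ) - 1) ∧ 1 - 1 / ((p : ℝ) - 1) ≤ 1 := by
      intro p hp
      have hp2 : (2 : ℝ) ≤ p := by exact_mod_cast (mem_PS.1 hp).1.2.two_le
      have h7 : 1 / ((p : ℝ) - 1) ≤ 1 := by rw [div_le_one (by linarith)]; linarith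
      have h8 : 0 ≤ 1 / ((p : ℝ) - 1) := div_nonneg zero_le_one (by linarith)
      constructor <;> linarith
    have g1 : 0 ≤ ∏ p ∈ PS z q (C * Y).natAbs, (1 - 1 / ((p : ℝ) - 1)) := prod_nonneg fun p hp => (hh p hp).1
    have g2 : ∏ p ∈ PS z q (C * Y).natAbs, (1 - 1 / ((p : ℝ) - 1)) ≤ 1 := prod_le_one (fun p hp => (hh p hp).1) (fun p hp => (hh p hp).2)
    have g3 : (Vz z)⁻¹ / (Nat.totient q : ℝ) ≤ (Vz z)⁻¹ := div_le_self hVp hφ
    have g4 : 0 ≤ (Vz z)⁻¹ / (Nat.totient q : ℝ) := by positivity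
    refine ⟨mul_nonneg g4 g1, ?_⟩
    calc _ ≤ (Vz z)⁻¹ * 1 := mul_le_mul g3 g2 g1 hVp
      _ = _ := mul_one _
  rcases lt_or_ge (t : ℝ) (√(N : ℝ)) with hts | hts
  · -- small t
    have ht0 : (0 : ℝ) ≤ t := Nat.cast_nonneg _
    obtain ⟨H, hH⟩ : ∃ H : ℝ, H = (Vz z)⁻¹ * ∑ n ∈ (Icc 1 t).filter (fun n => n ≡ x₀ [MOD q] ∧ ∀ p ∈ TT z q, ¬ AL C Y p (n % p)),
      ArithmeticFunction.vonMangoldt n := ⟨_, rfl⟩
    rw [← hH]
    have e1 : 0 ≤ H := by
      rw [hH]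
      exact mul_nonneg hVp (sum_nonneg fun _ _ => ArithmeticFunction.vonMangoldt_nonneg)
    have e2 : H ≤ (Vz z)⁻¹ * (6 * t) := by
      rw [hH]
      apply mul_le_mul_of_nonneg_left _ hVp
      refine le_trans ?_ (lam1_le t)
      exact sum_le_sum_of_subset_of_nonneg (filter_subset _ _) fun _ _ _ => ArithmeticFunction.vonMangoldt_nonneg
    have e3 : |H - MT z q (C * Y).natAbs * t| ≤ (Vz z)⁻¹ * (6 * t) := by
      have h5 : 0 ≤ MT z q (C * Y).natAbs * t := mul_nonneg hMT0.1 ht0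
      have h6 : MT z q (C * Y).natAbs * t ≤ (Vz z)⁻¹ * t := mul_le_mul_of_nonneg_right hMT0.2 ht0
      have h7 : 0 ≤ (Vz z)⁻¹ * t := mul_nonneg hVp ht0
      rw [abs_le]
      constructor <;> linarith
    refine e3.trans ?_
    rw [le_div_iff₀ (by positivity)]
    calc (Vz z)⁻¹ * (6 * t) * L ^ D ≤ L * (L * √N) * L ^ D := by
          have : (6 : ℝ) * t ≤ L * √N := by nlinarith
          gcongr
      _ = √N * L ^ (D + 2) := by ring
      _ ≤ √N * √N := mul_le_mul_of_nonneg_left a4 hs0.le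
      _ = N := hss
  · have ht1 : (1 : ℝ) ≤ √(N : ℝ) := (one_le_pow₀ hL1).trans a4
    have ht0 : (0 : ℝ) < t := by linarith
    have htN : N1 ≤ t := by
      have h6 : ((N1 : ℝ)) ≤ √(N : ℝ) := by
        apply Real.le_sqrt_of_sq_le
        exact_mod_cast b1
      exact_mod_cast h6.trans hts
    have hlogt : L / 2 ≤ Real.log t := by
      have h6 : Real.log (√(N : ℝ)) = L / 2 := by rw [Real.log_sqrt hN0.le, ← hLd]
      rw [← h6]
      exact Real.log_le_log hs0 hts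
    have hlt0 : 0 < Real.log t := by linarith
    have hpw : ∀ j : ℕ, j ≤ Ez + Bq + 1 → L ^ j ≤ Real.log t ^ (j + 1) := by
      intro j hj
      refine le_trans ?_ (pow_le_pow_left₀ (by linarith) hlogt _)
      rw [div_pow, le_div_iff₀ (by positivity), pow_succ L j]
      apply mul_le_mul_of_nonneg_left _ (by positivity)
      have : (2 : ℝ) ^ (j + 1) ≤ 2 ^ (Ez + Bq + 4 + D) := pow_le_pow_right₀ (by norm_num) (by omega)
      linarith
    have key := h1 t htN z hz (hzE.trans (hpw Ez (by omega))) q hq (hqB.trans (hpw Bq (by omega))) x₀ hx₀ (AL C Y) (rho_lin_le C Y hg)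
    rw [← prod_lin C Y hg z q]
    obtain ⟨W, hW⟩ : ∃ W : ℝ, W = ∑ n ∈ (Icc 1 t).filter (fun n => n ≡ x₀ [MOD q] ∧ ∀ p ∈ TT z q, ¬ AL C Y p (n % p)),
      ArithmeticFunction.vonMangoldt n := ⟨_, rfl⟩
    obtain ⟨P1, hP1⟩ : ∃ P1 : ℝ, P1 = ∏ p ∈ TT z q, (1 - (rho (AL C Y) p : ℝ) / (p - 1 : ℝ)) := ⟨_, rfl⟩
    rw [← hW, ← hP1] at key ⊢
    have e : (Vz z)⁻¹ * W - (Vz z)⁻¹ / (Nat.totient q : ℝ) * P1 * t = (Vz z)⁻¹ * (W - t / (Nat.totient q : ℝ) * P1) := by ring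
    rw [e, abs_mul, abs_of_nonneg hVp]
    have hD : (t : ℝ) / Real.log t ^ (D + 2) ≤ (Bc * N) / (L / 2) ^ (D + 2) := by
      have h5 : (t : ℝ) ≤ Bc * N := by exact_mod_cast ht
      have h6 : (L / 2) ^ (D + 2) ≤ Real.log t ^ (D + 2) := pow_le_pow_left₀ (by linarith) hlogt _
      exact div_le_div₀ (by positivity) h5 (by positivity) h6
    calc (Vz z)⁻¹ * |W - t / (Nat.totient q : ℝ) * P1| ≤ L * ((Bc * N) / (L / 2) ^ (D + 2)) :=
          mul_le_mul hV (key.trans hD) (abs_nonneg _) hL0.le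
      _ = (2 ^ (D + 2) * Bc / L) * (N / L ^ D) := by
          rw [div_pow, pow_add L D 2]
          field_simp
      _ ≤ 1 * (N / L ^ D) := by
          apply mul_le_mul_of_nonneg_right _ (by positivity)
          rw [div_le_one hL0]
          have h5 : (2 : ℝ) ^ (D + 2) ≤ 2 ^ (Ez + Bq + 4 + D) := pow_le_pow_right₀ (by norm_num) (by omega)
          have h6 : (2 : ℝ) ^ (D + 2) * Bc ≤ 2 ^ (Ez + Bq + 4 + D) * (Bc + 1) := by
            apply mul_le_mul h5 (by linarith) hBc (by positivity)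
          linarith
      _ = _ := one_mul _

/-- the map `n ↦ (b n + c) / a` -/
def ph (a b : ℕ) (c : ℤ) (n : ℕ) : ℤ := ((b : ℤ) * n + c) / a

/-- the class `x` modulo `a ^ 2` -/
noncomputable def wx (a x : ℕ) (n : ℕ) : ℝ := if n % (a * a) = x then ArithmeticFunction.vonMangoldt n else 0

lemma wx_nonneg (a x n : ℕ) : 0 ≤ wx a x n := by
  unfold wx
  split_ifs
  · exact ArithmeticFunction.vonMangoldt_nonneg
  · exact le_rfl

/-- the admissible classes modulo `a ^ 2` -/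
def Adm (a b : ℕ) (c : ℤ) (x : ℕ) : Prop := Nat.Coprime x a ∧ (a : ℤ) ∣ b * x + c ∧ Int.gcd (ph a b c x) a = 1

lemma ph_mul (a b : ℕ) (c : ℤ) (n : ℕ) (h : (a : ℤ) ∣ b * n + c) : (a : ℤ) * ph a b c n = b * n + c := by
  unfold ph
  exact Int.mul_ediv_cancel' h

lemma dvd_class (a b : ℕ) (c : ℤ) (x n : ℕ) (hn : n % (a * a) = x) (h : (a : ℤ) ∣ b * x + c) : (a : ℤ) ∣ b * n + c := by
  have e : (n : ℤ) = x + (a : ℤ) * a * ((n / (a * a) : ℕ) : ℤ) := by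
    rw [← hn]
    exact_mod_cast (Nat.mod_add_div n (a * a)).symm
  have e2 : (b : ℤ) * n + c = (b * x + c) + a * (b * (a * ((n / (a * a) : ℕ) : ℤ))) := by
    conv_lhs => rw [e]
    ring
  rw [e2]
  exact dvd_add h (dvd_mul_right _ _)

lemma ph_class (a b : ℕ) (ha : 1 ≤ a) (c : ℤ) (x n : ℕ) (hn : n % (a * a) = x) (h : (a : ℤ) ∣ b * x + c) :
    ph a b c n = ph a b c x + a * (b * ((n / (a * a) : ℕ) : ℤ)) := by
  have ha0 : (a : ℤ) ≠ 0 := by exact_mod_cast (by omega : a ≠ 0)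
  apply mul_left_cancel₀ ha0
  rw [ph_mul a b c n (dvd_class a b c x n hn h), mul_add, ph_mul a b c x h]
  have e : (n : ℤ) = x + (a : ℤ) * a * ((n / (a * a) : ℕ) : ℤ) := by
    rw [← hn]
    exact_mod_cast (Nat.mod_add_div n (a * a)).symm
  conv_lhs => rw [e]
  ring

lemma adm_class (a b : ℕ) (ha : 1 ≤ a) (c : ℤ) (x n : ℕ) (hn : n % (a * a) = x) (h : Adm a b c x) : Adm a b c n := by
  obtain ⟨h1, h2, h3⟩ := h
  refine ⟨?_, dvd_class a b c x n hn h2, ?_⟩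
  · have e : n = x + a * (a * (n / (a * a))) := by
      rw [← hn, ← mul_assoc]
      exact (Nat.mod_add_div n (a * a)).symm
    rw [e]
    exact (Nat.coprime_add_mul_left_left _ _ _).2 h1
  · rw [ph_class a b ha c x n hn h2, Int.gcd_add_mul_left_left]
    exact h3

open Classical in
lemma HHx_eq (a b : ℕ) (ha : 1 ≤ a) (c : ℤ) (x : ℕ) (hxa : x < a * a) (h : Adm a b c x) (z t : ℕ) :
    GG (hhI z) (wx a x) (ph a b c) t = (Vz z)⁻¹ *
      ∑ n ∈ (Icc 1 t).filter (fun n => n ≡ x [MOD a * a] ∧ ∀ p ∈ TT z (a * a), ¬ AL b c p (n % p)),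
        ArithmeticFunction.vonMangoldt n := by
  unfold GG
  rw [sum_filter, mul_sum]
  apply sum_congr rfl
  intro n _
  have hmod : n ≡ x [MOD a * a] ↔ n % (a * a) = x := by
    unfold Nat.ModEq
    rw [Nat.mod_eq_of_lt hxa]
  unfold wx
  by_cases h1 : n % (a * a) = x
  · have hadm := adm_class a b ha c x n h1 h
    have hmul := ph_mul a b c n hadm.2.1
    have h2 : (∀ p ∈ pz z, ¬ (p : ℤ) ∣ ph a b c n) ↔ ∀ p ∈ TT z (a * a), ¬ AL b c p (n % p) := by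
      constructor
      · intro h p hp
        rw [AL_mod]
        obtain ⟨hp1, hp2⟩ := mem_TT.1 hp
        have hpp := (mem_pz.1 hp1).2
        intro hd
        apply h p hp1
        rw [← hmul] at hd
        rcases (Nat.prime_iff_prime_int.1 hpp).dvd_or_dvd hd with h3 | h3
        · exact absurd (Dvd.dvd.mul_right (Int.natCast_dvd_natCast.1 h3) a) hp2
        · exact h3
      · intro h p hp hd
        by_cases hpq : p ∣ a * a
        · have hpp := (mem_pz.1 hp).2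
          have h3 : p ∣ a := by
            rcases hpp.dvd_mul.1 hpq with h4 | h4 <;> exact h4
          have h6 : (p : ℤ) ∣ (Int.gcd (ph a b c n) a : ℕ) := Int.dvd_coe_gcd hd (by exact_mod_cast h3)
          rw [hadm.2.2] at h6
          have h7 : p ∣ 1 := by exact_mod_cast h6
          exact hpp.one_lt.ne' (Nat.dvd_one.1 h7)
        · refine h p (mem_TT.2 ⟨hp, hpq⟩) ((AL_mod b c p n).2 ?_)
          rw [← hmul]
          exact Dvd.dvd.mul_left hd _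
    rw [if_pos h1]
    unfold hhI
    by_cases h3 : ∀ p ∈ pz z, ¬ (p : ℤ) ∣ ph a b c n
    · rw [if_pos h3, if_pos ⟨hmod.2 h1, h2.1 h3⟩, mul_comm]
    · rw [if_neg h3, if_neg (fun h => h3 (h2.2 h.2))]
      simp
  · rw [if_neg h1, zero_mul]
    have h4 : ¬ (n ≡ x [MOD a * a] ∧ ∀ p ∈ TT z (a * a), ¬ AL b c p (n % p)) := fun h => h1 (hmod.1 h.1)
    rw [if_neg h4, mul_zero]

/-- the primes which divide `a` do not matter -/
lemma MT_abc (a b : ℕ) (c : ℤ) (z : ℕ) : MT z (a * a) ((b : ℤ) * c).natAbs = MT z (a * a) ((a : ℤ) * b * c).natAbs := by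
  unfold MT
  congr 1
  have e : PS z (a * a) ((b : ℤ) * c).natAbs = PS z (a * a) ((a : ℤ) * b * c).natAbs := by
    ext p
    rw [mem_PS, mem_PS]
    have h1 : ((a : ℤ) * b * c).natAbs = a * ((b : ℤ) * c).natAbs := by
      rw [mul_assoc, Int.natAbs_mul, Int.natAbs_natCast]
    rw [h1]
    constructor
    · rintro ⟨h2, h3, h4⟩
      refine ⟨h2, h3, fun h5 => ?_⟩
      rcases h2.2.dvd_mul.1 h5 with h6 | h6
      · exact h3 (Dvd.dvd.mul_right h6 _)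
      · exact h4 h6
    · rintro ⟨h2, h3, h4⟩
      exact ⟨h2, h3, fun h5 => h4 (Dvd.dvd.mul_left h5 _)⟩
  rw [e]

theorem HHx_main (A Bc Ez D : ℕ) : ∃ N₀ : ℕ, ∀ N : ℕ, N₀ ≤ N → ∀ z : ℕ, 1 ≤ z → (z : ℝ) ≤ Real.log N ^ Ez →
    ∀ a b : ℕ, 1 ≤ a → a ≤ A → ∀ c : ℤ, Int.gcd b c = 1 → ∀ x : ℕ, x < a * a → Adm a b c x →
    ∀ t : ℕ, t ≤ Bc * N →
    |GG (hhI z) (wx a x) (ph a b c) t - MT z (a * a) ((a : ℤ) * b * c).natAbs * t| ≤ N / Real.log N ^ D := by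
  classical
  obtain ⟨N1, h1⟩ := core_main Bc Ez 1 D
  obtain ⟨n2, h2⟩ := ev_L' ((A : ℝ) * A)
  refine ⟨N1 + n2, fun N hN z hz hzE a b ha haA c hg x hx hadm t ht => ?_⟩
  rw [HHx_eq a b ha c x hx hadm z t, ← MT_abc]
  have hcop : Nat.Coprime x (a * a) := Nat.Coprime.mul_right hadm.1 hadm.1
  apply h1 N (by omega) z hz hzE (a * a) (Nat.mul_pos ha ha) _ x hcop b c hg t ht
  rw [pow_one]
  refine le_trans ?_ (h2 N (by omega))
  push_cast
  have : (a : ℝ) ≤ A := by exact_mod_cast haA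
  have h0 : (0 : ℝ) ≤ a := Nat.cast_nonneg _
  nlinarith

end Pool.Agent.L7h50.AB
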