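import Pool.Agent.L7h50.AB.D2

set_option autoImplicit false

/-! The number of the admissible classes modulo `a ^ 2`. -/

namespace Pool.Agent.L7h50.AB
open Finset
open Pool.Agent.H373R2.T7
open Pool.Agent.N469.LP
open Pool.Agent.W93.PP (MT PS mem_PS Cnt MT_sing cnt_eq)
open Pool.Agent.H560R3.GB (sing)

lemma adm_iff (a b : ℕ) (ha : 1 ≤ a) (c : ℤ) (n : ℕ) : Adm a b c n ↔ Adm a b c (n % (a * a)) := by
  constructor
  · rintro ⟨h1, h2, h3⟩
    obtain ⟨x, hx⟩ : ∃ x, n % (a * a) = x := ⟨_, rfl⟩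
    rw [hx]
    have hd : (a : ℤ) ∣ b * x + c := by
      have e : (n : ℤ) = x + (a : ℤ) * a * ((n / (a * a) : ℕ) : ℤ) := by
        rw [← hx]
        exact_mod_cast (Nat.mod_add_div n (a * a)).symm
      have e2 : (b : ℤ) * n + c = (b * x + c) + a * (b * (a * ((n / (a * a) : ℕ) : ℤ))) := by
        conv_lhs => rw [e]
        ring
      rw [e2] at h2
      exact (Int.dvd_add_left (dvd_mul_right _ _)).1 h2
    refine ⟨?_, hd, ?_⟩
    · have e : n = x + a * (a * (n / (a * a))) := by
        rw [← hx, ← mul_assoc]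
        exact (Nat.mod_add_div n (a * a)).symm
      rw [e] at h1
      exact (Nat.coprime_add_mul_left_left _ _ _).1 h1
    · rw [ph_class a b ha c x n hx hd, Int.gcd_add_mul_left_left] at h3
      exact h3
  · exact adm_class a b ha c _ n rfl

/-- a linear substitution modulo `a` -/
lemma count_lin (a : ℕ) (ha : 1 ≤ a) (b u : ℤ) (hb : IsCoprime b (a : ℤ)) :
    ((range a).filter (fun j : ℕ => Int.gcd (u + b * j) a = 1)).card = Nat.totient a := by
  classical
  have ha0 : (0 : ℤ) < a := by exact_mod_cast ha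
  obtain ⟨b', w, hbw⟩ := hb
  rw [Nat.totient_eq_card_coprime]
  -- reduction modulo a
  have hred : ∀ y : ℤ, (((y % (a : ℤ)).toNat : ℕ) : ℤ) = y % (a : ℤ) := fun y => Int.toNat_of_nonneg (Int.emod_nonneg _ ha0.ne')
  have hlt : ∀ y : ℤ, (y % (a : ℤ)).toNat < a := fun y => by
    have h1 := Int.emod_lt_of_pos y ha0
    have h2 := hred y
    omega
  have hdv : ∀ y : ℤ, (a : ℤ) ∣ y - y % a := fun y => Int.dvd_self_sub_emod
  have hgcd : ∀ y y' : ℤ, (a : ℤ) ∣ y - y' → Int.gcd y a = Int.gcd y' a := by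
    rintro y y' ⟨m, hm⟩
    have : y = y' + a * m := by linarith
    rw [this, Int.gcd_add_mul_left_left]
  have hsmall : ∀ i j : ℕ, i < a → j < a → (a : ℤ) ∣ (i : ℤ) - j → i = j := by
    intro i j hi hj hd
    have := Int.eq_zero_of_abs_lt_dvd hd (by rw [abs_lt]; constructor <;> omega)
    omega
  apply le_antisymm
  · apply card_le_card_of_injOn (fun j : ℕ => ((u + b * j) % (a : ℤ)).toNat)
    · intro j hj
      rw [mem_coe, mem_filter, mem_range] at hj ⊢
      refine ⟨hlt _, ?_⟩
      have h1 : Int.gcd (((u + b * j) % (a : ℤ)).toNat : ℤ) a = 1 := by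
        rw [hred, ← hgcd _ _ (hdv (u + b * j))]
        exact hj.2
      rw [Int.gcd_natCast_natCast] at h1
      exact Nat.Coprime.symm h1
    · intro i hi j hj hij
      simp only [coe_filter, mem_range, Set.mem_ofPred_eq] at hi hj
      simp only at hij
      apply hsmall i j hi.1 hj.1
      have h1 : (a : ℤ) ∣ (u + b * i) - (u + b * j) := by
        have e : (u + b * i) % (a : ℤ) = (u + b * j) % (a : ℤ) := by rw [← hred, ← hred (u + b * j), hij]
        exact Int.ModEq.dvd (Int.ModEq.symm e)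
      have h2 : (a : ℤ) ∣ b' * ((u + b * i) - (u + b * j)) := Dvd.dvd.mul_left h1 _
      have e : b' * ((u + b * i) - (u + b * j)) = ((i : ℤ) - j) - a * (w * ((i : ℤ) - j)) := by
        linear_combination ((i : ℤ) - j) * hbw
      rw [e] at h2
      exact (dvd_sub_left (dvd_mul_right _ _)).1 h2
  · apply card_le_card_of_injOn (fun j : ℕ => ((b' * (j - u)) % (a : ℤ)).toNat)
    · intro j hj
      rw [mem_coe, mem_filter, mem_range] at hj ⊢
      refine ⟨hlt _, ?_⟩
      rw [hred]
      have h1 : (a : ℤ) ∣ (u + b * ((b' * (j - u)) % (a : ℤ))) - j := by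
        have h2 := hdv (b' * (j - u))
        have e : (u + b * ((b' * (j - u)) % (a : ℤ))) - j = -(b * (b' * (j - u) - b' * (j - u) % a)) - a * (w * (j - u)) := by
          linear_combination ((j : ℤ) - u) * hbw
        rw [e]
        exact dvd_sub (dvd_neg.2 (Dvd.dvd.mul_left h2 _)) (dvd_mul_right _ _)
      rw [hgcd _ _ h1, Int.gcd_natCast_natCast]
      exact Nat.Coprime.symm hj.2
    · intro i hi j hj hij
      simp only [coe_filter, mem_range, Set.mem_ofPred_eq] at hi hj
      simp only at hij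
      apply hsmall i j hi.1 hj.1
      have h1 : (a : ℤ) ∣ b' * (i - u) - b' * (j - u) := by
        have e : (b' * (i - u)) % (a : ℤ) = (b' * (j - u)) % (a : ℤ) := by rw [← hred, ← hred (b' * (j - u)), hij]
        exact Int.ModEq.dvd (Int.ModEq.symm e)
      have h2 : (a : ℤ) ∣ b * (b' * (i - u) - b' * (j - u)) := Dvd.dvd.mul_left h1 _
      have e : b * (b' * (i - u) - b' * (j - u)) = ((i : ℤ) - j) - a * (w * ((i : ℤ) - j)) := by
        linear_combination ((i : ℤ) - j) * hbw
      rw [e] at h2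
      exact (dvd_sub_left (dvd_mul_right _ _)).1 h2

open Classical in
/-- there are `φ(a)` admissible classes -/
theorem adm_card (a b : ℕ) (ha : 1 ≤ a) (hab : Nat.Coprime a b) (c : ℤ) (hac : IsCoprime (a : ℤ) c) :
    ((range (a * a)).filter (Adm a b c)).card = Nat.totient a := by
  have ha0 : (0 : ℤ) < a := by exact_mod_cast ha
  have hba : IsCoprime (b : ℤ) (a : ℤ) := Nat.isCoprime_iff_coprime.2 hab.symm
  obtain ⟨s', t', hst⟩ := hba
  -- the solution modulo a
  obtain ⟨s, hs⟩ : ∃ s : ℕ, s = ((-c * s') % (a : ℤ)).toNat := ⟨_, rfl⟩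
  have hsz : (s : ℤ) = (-c * s') % (a : ℤ) := by rw [hs]; exact Int.toNat_of_nonneg (Int.emod_nonneg _ ha0.ne')
  have hsa : s < a := by
    have := Int.emod_lt_of_pos (-c * s') ha0
    omega
  have hsd : (a : ℤ) ∣ b * s + c := by
    have h1 : (a : ℤ) ∣ (-c * s') - (-c * s') % a := Int.dvd_self_sub_emod
    rw [← hsz] at h1
    have e : (b : ℤ) * s + c = -(b * ((-c * s') - s)) + a * (t' * c) := by
      linear_combination (-c) * hst
    rw [e]
    exact dvd_add (dvd_neg.2 (Dvd.dvd.mul_left h1 _)) (dvd_mul_right _ _)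
  have hcop : ∀ x : ℕ, (a : ℤ) ∣ b * x + c → Nat.Coprime x a := by
    intro x hx
    rw [Nat.coprime_comm]
    apply Nat.Coprime.symm
    by_contra hne
    obtain ⟨p, hp, hp1, hp2⟩ := Nat.Prime.not_coprime_iff_dvd.1 hne
    have h1 : (p : ℤ) ∣ b * x + c := dvd_trans (by exact_mod_cast hp2) hx
    have h2 : (p : ℤ) ∣ c := (Int.dvd_add_right (Dvd.dvd.mul_left (by exact_mod_cast hp1) _)).1 h1
    exact (Nat.prime_iff_prime_int.1 hp).not_isUnit (hac.isUnit_of_dvd' (by exact_mod_cast hp2) h2)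
  rw [← count_lin a ha (b : ℤ) (ph a b c s) ⟨s', t', hst⟩]
  symm
  apply card_bij (fun j _ => s + a * j)
  · intro j hj
    rw [mem_filter, mem_range] at hj ⊢
    have hd : (a : ℤ) ∣ b * ((s + a * j : ℕ) : ℤ) + c := by
      have e : (b : ℤ) * ((s + a * j : ℕ) : ℤ) + c = (b * s + c) + a * (b * j) := by push_cast; ring
      rw [e]
      exact dvd_add hsd (dvd_mul_right _ _)
    refine ⟨?_, hcop _ hd, hd, ?_⟩
    · calc s + a * j < a + a * j := by omega
        _ = a * (j + 1) := by ring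
        _ ≤ a * a := Nat.mul_le_mul_left _ (by omega)
    · have e : ph a b c (s + a * j) = ph a b c s + b * j := by
        apply mul_left_cancel₀ ha0.ne'
        rw [ph_mul a b c _ hd, mul_add, ph_mul a b c s hsd]
        push_cast
        ring
      rw [e]
      exact hj.2
  · intro i _ j _ hij
    have : a * i = a * j := by omega
    exact Nat.eq_of_mul_eq_mul_left ha this
  · intro x hx
    rw [mem_filter, mem_range] at hx
    obtain ⟨hxa, hx1, hx2, hx3⟩ := hx
    -- x = s mod a
    have h1 : (a : ℤ) ∣ b * ((x : ℤ) - s) := by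
      have e : (b : ℤ) * ((x : ℤ) - s) = (b * x + c) - (b * s + c) := by ring
      rw [e]
      exact dvd_sub hx2 hsd
    have h2 : (a : ℤ) ∣ (x : ℤ) - s := by
      have h3 : (a : ℤ) ∣ s' * (b * ((x : ℤ) - s)) := Dvd.dvd.mul_left h1 _
      have e : s' * (b * ((x : ℤ) - s)) = ((x : ℤ) - s) - a * (t' * ((x : ℤ) - s)) := by
        linear_combination ((x : ℤ) - s) * hst
      rw [e] at h3
      exact (dvd_sub_left (dvd_mul_right _ _)).1 h3
    have h4 : s = x % a := by
      have h5 : (x : ℤ) % a = (s : ℤ) % a := ((Int.modEq_iff_dvd (n := (a : ℤ)) (a := (s : ℤ)) (b := (x : ℤ))).2 h2).symm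
      have h6 : ((x % a : ℕ) : ℤ) = ((s % a : ℕ) : ℤ) := by push_cast; exact h5
      have h7 : x % a = s % a := by exact_mod_cast h6
      rw [h7, Nat.mod_eq_of_lt hsa]
    have h5 : x = s + a * (x / a) := by
      rw [h4]
      exact (Nat.mod_add_div x a).symm
    refine ⟨x / a, ?_, h5.symm⟩
    rw [mem_filter, mem_range]
    refine ⟨Nat.div_lt_of_lt_mul hxa, ?_⟩
    have e : ph a b c x = ph a b c s + b * ((x / a : ℕ) : ℤ) := by
      apply mul_left_cancel₀ ha0.ne'
      rw [ph_mul a b c _ hx2, mul_add, ph_mul a b c s hsd]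
      have h6 : (x : ℤ) = s + a * ((x / a : ℕ) : ℤ) := by exact_mod_cast h5
      conv_lhs => rw [h6]
      ring
    rw [← e]
    exact hx3

lemma totient_sq (a : ℕ) (ha : 1 ≤ a) : Nat.totient (a * a) = a * Nat.totient a := by
  have h := Nat.totient_gcd_mul_totient_mul a a
  rw [Nat.gcd_self] at h
  have h1 : 0 < Nat.totient a := Nat.totient_pos.2 ha
  apply Nat.eq_of_mul_eq_mul_left h1
  rw [h]
  ring

/-- the number of the classes in the main term -/
lemma Cnt_sq (a : ℕ) (ha : 1 ≤ a) (h : ℕ) (hd : a ∣ h) : (Cnt (a * a) h : ℝ) = a * Nat.totient a := by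
  rw [cnt_eq (a * a) h (Nat.mul_pos ha ha), prod_eq_one, mul_one, totient_sq a ha]
  · push_cast
    rfl
  · intro p hp
    have hpp := Nat.prime_of_mem_primeFactors hp
    have h1 := Nat.dvd_of_mem_primeFactors hp
    have h2 : p ∣ a := by
      rcases hpp.dvd_mul.1 h1 with h4 | h4 <;> exact h4
    rw [if_pos (h2.trans hd)]

end Pool.Agent.L7h50.AB
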