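import Pool.Agent.L7h50.AB.D3

set_option autoImplicit false

/-! The number of the prime solutions of `a p - b q = c` in windows: the deterministic part
(adapted from `Pool.Agent.N469.LP.Good`). -/

namespace Pool.Agent.L7h50.AB
open Finset
open Pool.Agent.H373R2.T7
open Pool.Agent.N469.LP
open Pool.Agent.W93.PP (MT PS mem_PS Cnt MT_sing cnt_eq)
open Pool.Agent.H560R3.GB (sing)

lemma fin_calc (ε η F e x : ℝ) (hη : 0 < η) (hη1 : η ≤ 1 / 8) (hηε : 8 * η ≤ ε) (hF0 : 0 < F) (heF : 3 * e ≤ 3 * η * F)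
    (g1' : F - 3 * e ≤ (1 + η) * x) (g2' : (1 - η) * x ≤ F + 3 * e) : |x - F| ≤ ε * F := by
  have hx1 : (1 - 4 * η) * F ≤ x := by
    have q1 : (1 - 3 * η) * F ≤ (1 + η) * x := by linarith
    have q2 : (1 + η) * ((1 - 4 * η) * F) ≤ (1 + η) * x := by
      refine le_trans ?_ q1
      have : (1 + η) * ((1 - 4 * η) * F) = (1 - 3 * η) * F - 4 * η ^ 2 * F := by ring
      rw [this]
      have : 0 ≤ 4 * η ^ 2 * F := by positivity
      linarith
    exact le_of_mul_le_mul_left q2 (by linarith)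
  have hx2 : x ≤ (1 + 8 * η) * F := by
    have q1 : (1 - η) * x ≤ (1 + 3 * η) * F := by linarith
    have q2 : (1 - η) * x ≤ (1 - η) * ((1 + 8 * η) * F) := by
      refine q1.trans ?_
      have : (1 - η) * ((1 + 8 * η) * F) = (1 + 3 * η) * F + (4 * η - 8 * η ^ 2) * F := by ring
      rw [this]
      have : 0 ≤ (4 * η - 8 * η ^ 2) * F := mul_nonneg (by nlinarith) hF0.le
      linarith
    exact le_of_mul_le_mul_left q2 (by linarith)
  have q9 : 8 * η * F ≤ ε * F := mul_le_mul_of_nonneg_right hηε hF0.le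
  rw [abs_le]
  have q10 : 0 ≤ η * F := by positivity
  constructor <;> linarith

/-- `a, b, c` are pairwise coprime and not all odd, `a, b ≥ 1` and `c ≠ 0` -/
def Ok (a b : ℕ) (c : ℤ) : Prop :=
  1 ≤ a ∧ 1 ≤ b ∧ c ≠ 0 ∧ Nat.Coprime a b ∧ IsCoprime (a : ℤ) c ∧ IsCoprime (b : ℤ) c ∧ (2 : ℤ) ∣ a * b * c

open Classical in
/-- the number of the primes `M < q ≤ M'` such that `(b q + c) / a` is a prime -/
noncomputable def cntE (a b : ℕ) (c : ℤ) (M M' : ℕ) : ℕ :=
  ((Ioc M M').filter fun q : ℕ => q.Prime ∧ ∃ p : ℕ, p.Prime ∧ (a : ℤ) * p = b * q + c).card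

/-- the density -/
noncomputable def dE (a b : ℕ) (c : ℤ) : ℝ := sing ((a : ℤ) * b * c).natAbs / a

/-- all the windows are as they should be -/
def GoodE (ε : ℝ) (W X : ℕ) (a b : ℕ) (c : ℤ) : Prop :=
  ∀ M M' : ℕ, M' ≤ X → (M : ℝ) + X / Real.log X ^ W ≤ M' → (∀ n ∈ Ioc M M', 0 < (b : ℤ) * n + c) →
    |(cntE a b c M M' : ℝ) - dE a b c * (((M' : ℝ) - M) / Real.log X ^ 2)| ≤ ε * (dE a b c * (((M' : ℝ) - M) / Real.log X ^ 2))

lemma ph_inj (a b : ℕ) (hb : 1 ≤ b) (c : ℤ) (n m : ℕ) (hn : (a : ℤ) ∣ b * n + c) (hm : (a : ℤ) ∣ b * m + c)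
    (h : ph a b c n = ph a b c m) : n = m := by
  have h1 := ph_mul a b c n hn
  have h2 := ph_mul a b c m hm
  rw [h, h2] at h1
  have hb0 : (b : ℤ) ≠ 0 := by exact_mod_cast (by omega : b ≠ 0)
  have h3 : (b : ℤ) * m = b * n := by linarith
  have := mul_left_cancel₀ hb0 h3
  exact_mod_cast this.symm

open Classical in
lemma cnt_cmp (a b : ℕ) (c : ℤ) (hOk : Ok a b c) (M M' : ℕ) :
    cpf (ph a b c) ((Ioc M M').filter (Adm a b c)) ≤ cntE a b c M M' ∧
    cntE a b c M M' ≤ cpf (ph a b c) ((Ioc M M').filter (Adm a b c)) + 2 * a := by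
  obtain ⟨ha, hb, hc0, hab, hac, hbc, h2⟩ := hOk
  have ha0 : (0 : ℤ) < a := by exact_mod_cast ha
  unfold cpf cntE
  constructor
  · apply card_le_card
    intro n hn
    rw [mem_filter, mem_filter] at hn
    rw [mem_filter]
    obtain ⟨⟨h3, h4⟩, h5, h6⟩ := hn
    refine ⟨h3, h5, (ph a b c n).toNat, h6, ?_⟩
    have h7 : 0 < ph a b c n := by
      by_contra hcon
      have : (ph a b c n).toNat = 0 := by omega
      rw [this] at h6
      exact Nat.not_prime_zero h6
    rw [Int.toNat_of_nonneg h7.le]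
    exact ph_mul a b c n h4.2.1
  · obtain ⟨T2, hT2⟩ : ∃ T2, T2 = (Ioc M M').filter (fun n => n ≤ a) := ⟨_, rfl⟩
    obtain ⟨T3, hT3⟩ : ∃ T3, T3 = (Ioc M M').filter (fun n : ℕ => ∃ p : ℕ, p.Prime ∧ p ≤ a ∧ (a : ℤ) * p = b * n + c) := ⟨_, rfl⟩
    have c2 : T2.card ≤ a := by
      have : T2 ⊆ Icc 1 a := by
        intro n hn
        rw [hT2, mem_filter, mem_Ioc] at hn
        rw [mem_Icc]
        omega
      refine (card_le_card this).trans ?_
      rw [Nat.card_Icc]
      omega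
    have c3 : T3.card ≤ a := by
      have h1 : T3.card ≤ (Icc 1 a).card := by
        apply card_le_card_of_injOn (fun n : ℕ => (ph a b c n).toNat)
        · intro n hn
          rw [mem_coe, hT3, mem_filter] at hn
          obtain ⟨_, p, hp, hpa, he⟩ := hn
          have hd : (a : ℤ) ∣ b * n + c := ⟨p, he.symm⟩
          have h4 : ph a b c n = p := by
            apply mul_left_cancel₀ ha0.ne'
            rw [ph_mul a b c n hd, he]
          rw [mem_coe, mem_Icc]
          simp only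
          rw [h4, Int.toNat_natCast]
          exact ⟨hp.one_lt.le, hpa⟩
        · intro n hn m hm hnm
          rw [mem_coe, hT3, mem_filter] at hn hm
          obtain ⟨_, p, hp, hpa, he⟩ := hn
          obtain ⟨_, p', hp', hpa', he'⟩ := hm
          have hd : (a : ℤ) ∣ b * n + c := ⟨p, he.symm⟩
          have hd' : (a : ℤ) ∣ b * m + c := ⟨p', he'.symm⟩
          have h4 : ph a b c n = p := by
            apply mul_left_cancel₀ ha0.ne'
            rw [ph_mul a b c n hd, he]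
          have h5 : ph a b c m = p' := by
            apply mul_left_cancel₀ ha0.ne'
            rw [ph_mul a b c m hd', he']
          simp only at hnm
          rw [h4, h5, Int.toNat_natCast, Int.toNat_natCast] at hnm
          apply ph_inj a b hb c n m hd hd'
          rw [h4, h5, hnm]
      rw [Nat.card_Icc] at h1
      omega
    have hsub : (Ioc M M').filter (fun q : ℕ => q.Prime ∧ ∃ p : ℕ, p.Prime ∧ (a : ℤ) * p = b * q + c) ⊆
        (((Ioc M M').filter (Adm a b c)).filter fun n : ℕ => n.Prime ∧ (ph a b c n).toNat.Prime) ∪ (T2 ∪ T3) := by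
      intro n hn
      rw [mem_filter] at hn
      obtain ⟨h3, h4, p, hp, he⟩ := hn
      have hd : (a : ℤ) ∣ b * n + c := ⟨p, he.symm⟩
      have h5 : ph a b c n = p := by
        apply mul_left_cancel₀ ha0.ne'
        rw [ph_mul a b c n hd, he]
      rw [mem_union, mem_union]
      by_cases hA : Adm a b c n
      · left
        rw [mem_filter, mem_filter]
        refine ⟨⟨h3, hA⟩, h4, ?_⟩
        rw [h5, Int.toNat_natCast]
        exact hp
      · right
        unfold Adm at hA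
        by_cases h6 : Nat.Coprime n a
        · right
          rw [hT3, mem_filter]
          refine ⟨h3, p, hp, ?_, he⟩
          have h7 : ¬ Int.gcd (ph a b c n) a = 1 := fun h => hA ⟨h6, hd, h⟩
          rw [h5, Int.gcd_natCast_natCast] at h7
          have h8 : p ∣ a := by
            by_contra hcon
            exact h7 ((Nat.Prime.coprime_iff_not_dvd hp).2 hcon)
          exact Nat.le_of_dvd ha h8
        · left
          rw [hT2, mem_filter]
          refine ⟨h3, ?_⟩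
          have h8 : n ∣ a := by
            by_contra hcon
            exact h6 ((Nat.Prime.coprime_iff_not_dvd h4).2 hcon)
          exact Nat.le_of_dvd ha h8
    have h8 := card_le_card hsub
    have h9 := card_union_le (((Ioc M M').filter (Adm a b c)).filter fun n : ℕ => n.Prime ∧ (ph a b c n).toNat.Prime) (T2 ∪ T3)
    have h10 := card_union_le T2 T3
    omega

open Classical in
/-- the weights of the admissible classes -/
lemma sum_classes (a b : ℕ) (ha : 1 ≤ a) (c : ℤ) (F : ℤ → ℝ) {M M' : ℕ} (hM : M ≤ M') :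
    ∑ x ∈ (range (a * a)).filter (Adm a b c), (GG F (wx a x) (ph a b c) M' - GG F (wx a x) (ph a b c) M) =
      ∑ n ∈ (Ioc M M').filter (Adm a b c), ArithmeticFunction.vonMangoldt n * F (ph a b c n) := by
  have h1 : ∀ x ∈ (range (a * a)).filter (Adm a b c), GG F (wx a x) (ph a b c) M' - GG F (wx a x) (ph a b c) M =
      ∑ n ∈ Ioc M M', wx a x n * F (ph a b c n) := fun x _ => GG_sub F hM
  rw [sum_congr rfl h1, sum_comm, sum_filter]
  apply sum_congr rfl
  intro n _
  rw [← sum_mul]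
  have h2 : ∑ x ∈ (range (a * a)).filter (Adm a b c), wx a x n = if Adm a b c n then ArithmeticFunction.vonMangoldt n else 0 := by
    unfold wx
    rw [sum_ite_eq]
    have h3 : n % (a * a) ∈ (range (a * a)).filter (Adm a b c) ↔ Adm a b c n := by
      rw [mem_filter, mem_range, ← adm_iff a b ha c n]
      exact ⟨fun h => h.2, fun h => ⟨Nat.mod_lt _ (Nat.mul_pos ha ha), h⟩⟩
    by_cases h4 : Adm a b c n
    · rw [if_pos (h3.2 h4), if_pos h4]
    · rw [if_neg (fun h => h4 (h3.1 h)), if_neg h4]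
  rw [h2, ite_mul, zero_mul]

lemma MT_nonneg' (z q h : ℕ) : 0 ≤ MT z q h := by
  unfold MT
  apply mul_nonneg
  · exact div_nonneg (inv_pos.2 (Vz_pos z)).le (Nat.cast_nonneg _)
  · apply prod_nonneg
    intro p hp
    have hp2 : (2 : ℝ) ≤ p := by exact_mod_cast (mem_PS.1 hp).1.2.two_le
    have h7 : 1 / ((p : ℝ) - 1) ≤ 1 := by rw [div_le_one (by linarith)]; linarith
    linarith

open Classical in
theorem det_goodE (ε : ℝ) (hε : 0 < ε) (A B W E1 : ℕ) (hE1 : W + 12 ≤ E1) : ∃ N₀ : ℕ, ∀ X : ℕ, N₀ ≤ X →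
    ∀ z : ℕ, Real.log X ^ E1 ≤ z → (z : ℝ) ≤ Real.log X ^ (E1 + 1) →
    ∀ T : ℕ, Real.log X ^ (W + 7) ≤ T →
    ∀ a b : ℕ, a ≤ A → b ≤ A → ∀ c : ℤ, Ok a b c → |c| ≤ B * X →
    (∀ x < a * a, (a : ℤ) ∣ b * x + c → ∀ i : ℕ, i * (X / T + 1) ≤ 2 * X →
      |GG lamI (wx a x) (ph a b c) (i * (X / T + 1)) - GG (lamzI z) (wx a x) (ph a b c) (i * (X / T + 1))| ≤ X / Real.log X ^ (W + 5)) →
    GoodE ε W X a b c := by
  obtain ⟨ε', hε'⟩ : ∃ ε' : ℝ, ε' = ε / 2 := ⟨_, rfl⟩
  have hε'0 : 0 < ε' := by rw [hε']; positivity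
  obtain ⟨η, hηd⟩ : ∃ η : ℝ, η = min ε' 1 / 8 := ⟨_, rfl⟩
  have hη : 0 < η := by rw [hηd]; positivity
  have hη1 : η ≤ 1 / 8 := by
    rw [hηd]
    have := min_le_right ε' 1
    linarith
  have hηε : 8 * η ≤ ε' := by
    rw [hηd]
    have := min_le_left ε' 1
    linarith
  obtain ⟨J, hJ⟩ : ∃ J, J = W + 3 := ⟨_, rfl⟩
  obtain ⟨n1, h1⟩ := asym η hη (by linarith) (A + B + 1) J (by omega)
  obtain ⟨n2, h2⟩ := HHx_main A 2 (E1 + 1) (J + 2)
  obtain ⟨n3, h3⟩ := Vz_inv_small (E1 + 1)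
  obtain ⟨n4, h4⟩ := ev_L' (3 / η + A / η + 2 * (A : ℝ) ^ 2 / ε' + A + 4 * Real.log ((A * A * B + 1 : ℕ) : ℝ) + 16)
  obtain ⟨n5, h5⟩ := ev_log' (J + 4) 1
  refine ⟨n1 + n2 + n3 + n4 + n5 + 4, fun X hX z hz1 hz2 T hT a b haA hbA c hOk hcX hyp => ?_⟩
  obtain ⟨ha, hb, hc0, hab, hac, hbc, h2d⟩ := id hOk
  have k1 := h1 X (by omega)
  have k2 := h2 X (by omega) z
  have k3 := h3 X (by omega) z
  have hL := h4 X (by omega)
  have k5 := h5 X (by omega)
  have hX0 : (0 : ℝ) < X := by exact_mod_cast (by omega : 0 < X)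
  obtain ⟨L, hLd⟩ : ∃ L, L = Real.log (X : ℝ) := ⟨_, rfl⟩
  unfold GoodE
  rw [one_mul] at k5
  have hJ5 : W + 5 = J + 2 := by omega
  have hJ7 : W + 7 = J + 4 := by omega
  rw [hJ5] at hyp
  rw [hJ7] at hT
  rw [← hLd] at hz1 hz2 hT hyp k1 k2 k3 hL k5 ⊢
  have haR : (1 : ℝ) ≤ a := by exact_mod_cast ha
  have haA' : (a : ℝ) ≤ A := by exact_mod_cast haA
  have hA1 : (1 : ℝ) ≤ A := haR.trans haA'
  have p1 : 0 ≤ 3 / η := by positivity
  have p1' : 0 ≤ A / η := by positivity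
  have p1'' : 0 ≤ 2 * (A : ℝ) ^ 2 / ε' := by positivity
  have p3 : 0 ≤ Real.log ((A * A * B + 1 : ℕ) : ℝ) := Real.log_natCast_nonneg _
  have hL16 : 16 ≤ L := by linarith
  have hLA : (A : ℝ) ≤ L := by linarith
  have hL1 : 1 ≤ L := by linarith
  have hL0 : 0 < L := by linarith
  have hss : √(X : ℝ) * √(X : ℝ) = X := Real.mul_self_sqrt hX0.le
  have hs0 : 0 < √(X : ℝ) := Real.sqrt_pos.2 hX0
  have hz0 : (1 : ℝ) ≤ z := (one_le_pow₀ hL1).trans hz1
  have hzn : 1 ≤ z := by exact_mod_cast hz0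
  have hV := k3 hzn hz2
  have hT0 : (1 : ℝ) ≤ T := (one_le_pow₀ hL1).trans hT
  have hTn : 1 ≤ T := by exact_mod_cast hT0
  intro M M' hM' hMM hpos
  have hMM0 : (0 : ℝ) < X / L ^ W := by positivity
  have hMle : M ≤ M' := by
    have : (M : ℝ) ≤ M' := by linarith
    exact_mod_cast this
  obtain ⟨h, hh⟩ : ∃ h, h = ((a : ℤ) * b * c).natAbs := ⟨_, rfl⟩
  have hh2 : 2 ∣ h := by
    rw [hh]
    exact Int.natCast_dvd.1 (by exact_mod_cast h2d)
  have hh0 : h ≠ 0 := by
    rw [hh, Int.natAbs_ne_zero]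
    have q1 : (a : ℤ) ≠ 0 := by exact_mod_cast (by omega : a ≠ 0)
    have q2 : (b : ℤ) ≠ 0 := by exact_mod_cast (by omega : b ≠ 0)
    exact mul_ne_zero (mul_ne_zero q1 q2) hc0
  have hah : a ∣ h := by
    rw [hh, mul_assoc, Int.natAbs_mul, Int.natAbs_natCast]
    exact dvd_mul_right _ _
  have hcnt := Cnt_sq a ha h hah
  have hφ0 : 0 < Nat.totient a := Nat.totient_pos.2 ha
  have hφ1 : (1 : ℝ) ≤ Nat.totient a := by exact_mod_cast hφ0
  have hφa : (Nat.totient a : ℝ) ≤ A := le_trans (by exact_mod_cast Nat.totient_le a) haA'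
  have hc : 0 < Cnt (a * a) h := by
    have : (0 : ℝ) < Cnt (a * a) h := by rw [hcnt]; positivity
    exact_mod_cast this
  -- the step
  obtain ⟨s, hs⟩ : ∃ s, s = X / T + 1 := ⟨_, rfl⟩
  rw [← hs] at hyp
  have hsr : (s : ℝ) ≤ 2 * (X / L ^ (J + 4)) := by
    rw [hs]
    push_cast
    have q1 : ((X / T : ℕ) : ℝ) ≤ X / T := Nat.cast_div_le
    have q2 : (X : ℝ) / T ≤ X / L ^ (J + 4) := div_le_div_of_nonneg_left hX0.le (by positivity) hT
    have q3 : 1 ≤ X / L ^ (J + 4) := by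
      rw [le_div_iff₀ (by positivity), one_mul]
      have : 1 ≤ √(X : ℝ) := (one_le_pow₀ hL1).trans k5
      calc L ^ (J + 4) ≤ √X := k5
        _ ≤ √X * √X := by nlinarith
        _ = X := hss
    linarith
  have hsX : s ≤ X := by
    have q1 : (s : ℝ) ≤ X := by
      refine hsr.trans ?_
      rw [← mul_div_assoc, div_le_iff₀ (by positivity)]
      have : (2 : ℝ) ≤ L ^ (J + 4) := by
        calc (2 : ℝ) ≤ L := by linarith
          _ ≤ L ^ (J + 4) := le_self_pow₀ hL1 (by omega)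
      nlinarith
    exact_mod_cast q1
  obtain ⟨mt, hmt⟩ : ∃ mt, mt = MT z (a * a) h := ⟨_, rfl⟩
  have hMTs := MT_sing z (a * a) h L hL1 (Nat.mul_pos ha ha) (by
    have : ((a * a : ℕ) : ℝ) ≤ z := by
      push_cast
      calc (a : ℝ) * a ≤ L * L := by nlinarith
        _ = L ^ 2 := by ring
        _ ≤ L ^ E1 := pow_le_pow_right₀ hL1 (by omega)
        _ ≤ z := hz1
    exact_mod_cast this) hh2 hh0 hc hV (by
    have q1 : 2 ^ (Nat.log 2 h) ≤ h := Nat.pow_log_le_self 2 hh0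
    have q2 : (2 : ℝ) ^ (Nat.log 2 h) ≤ h := by exact_mod_cast q1
    have q3 : (Nat.log 2 h : ℝ) * Real.log 2 ≤ Real.log h := by
      have := Real.log_le_log (by positivity) q2
      rwa [Real.log_pow] at this
    have q4 : h ≤ (A * A * B + 1) * X := by
      rw [hh, Int.natAbs_mul, Int.natAbs_mul, Int.natAbs_natCast, Int.natAbs_natCast]
      have : c.natAbs ≤ B * X := by
        have h9 : ((c.natAbs : ℕ) : ℤ) ≤ ((B * X : ℕ) : ℤ) := by
          rw [Int.natCast_natAbs]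
          push_cast
          exact hcX
        exact_mod_cast h9
      calc a * b * c.natAbs ≤ A * A * (B * X) := Nat.mul_le_mul (Nat.mul_le_mul haA hbA) this
        _ ≤ (A * A * B + 1) * X := by nlinarith
    have q5 : Real.log h ≤ Real.log ((A * A * B + 1 : ℕ) : ℝ) + L := by
      rw [hLd, ← Real.log_mul (by exact_mod_cast (by omega : (A * A * B + 1 : ℕ) ≠ 0)) hX0.ne']
      apply Real.log_le_log (by exact_mod_cast Nat.pos_of_ne_zero hh0)
      exact_mod_cast q4
    have q6 := Real.log_two_gt_d9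
    have q7 : (0 : ℝ) ≤ (Nat.log 2 h : ℝ) := Nat.cast_nonneg _
    have q8 : (Nat.log 2 h : ℝ) * 0.69 ≤ (Nat.log 2 h : ℝ) * Real.log 2 := mul_le_mul_of_nonneg_left (by linarith) q7
    linarith) (by
    refine le_trans ?_ hz1
    calc 8 * L ≤ L * L := by nlinarith
      _ = L ^ 2 := by ring
      _ ≤ L ^ E1 := pow_le_pow_right₀ hL1 (by omega))
  obtain ⟨m1, m2, m3⟩ := hMTs
  obtain ⟨S0, hS0⟩ : ∃ S0, S0 = sing h / Cnt (a * a) h := ⟨_, rfl⟩
  rw [← hS0, ← hmt] at m1
  rw [← hS0] at m2 m3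
  obtain ⟨S, hS⟩ : ∃ S, S = sing h / a := ⟨_, rfl⟩
  have hSd : dE a b c = S := by
    unfold dE
    rw [← hh, hS]
  have hSS : S = Nat.totient a * S0 := by
    rw [hS, hS0, hcnt]
    field_simp
  rw [hSd]
  have hS1 : 1 / A ≤ S := by
    rw [hS]
    have q1 := Pool.Agent.W93.GB.one_le_sing h
    exact div_le_div₀ (by linarith) q1 (by linarith) haA'
  have hmt0 : 0 ≤ mt := by rw [hmt]; exact MT_nonneg' _ _ _
  have h8z : 8 * L ^ 2 / z ≤ 1 / L ^ (J + 2) := by
    rw [div_le_div_iff₀ (by linarith) (by positivity), one_mul]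
    refine le_trans ?_ hz1
    calc 8 * L ^ 2 * L ^ (J + 2) ≤ L * L ^ 2 * L ^ (J + 2) := by
          have : (8 : ℝ) ≤ L := by linarith
          gcongr
      _ = L ^ (J + 5) := by ring
      _ ≤ L ^ E1 := pow_le_pow_right₀ hL1 (by omega)
  have hmt1 : mt ≤ 3 * L := by
    have q1 := abs_le.1 m1
    have q2 : 8 * L ^ 2 / z ≤ L := by
      refine h8z.trans ?_
      rw [div_le_iff₀ (by positivity)]
      have : 1 ≤ L ^ (J + 2) := one_le_pow₀ hL1
      nlinarith
    linarith [q1.2]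
  -- the windows
  have hw : ∀ x ∈ (range (a * a)).filter (Adm a b c),
      |(GG lamI (wx a x) (ph a b c) M' - GG lamI (wx a x) (ph a b c) M) - mt * ((M' : ℝ) - M)| ≤ 16 * (X / L ^ (J + 2)) := by
    intro x hx
    rw [mem_filter, mem_range] at hx
    have hgbc : Int.gcd (b : ℤ) c = 1 := Int.isCoprime_iff_gcd_eq_one.1 hbc
    have q1 := window (wx_nonneg a x) (φ := ph a b c) z (2 * X) s (by rw [hs]; exact Nat.le_add_left 1 _) (X / L ^ (J + 2)) (X / L ^ (J + 2))
      mt hmt0 (by positivity) (by positivity)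
      (fun i hi => hyp x hx.1 hx.2.2.1 i hi)
      (fun t ht => by
        rw [hmt, hh]
        exact k2 hzn hz2 a b ha haA c hgbc x hx.1 hx.2 t ht)
      M M' hMle (by omega) (fun n hn hwn => by
        have hnx : n % (a * a) = x := by
          by_contra hcon
          apply hwn
          unfold wx
          rw [if_neg hcon]
        have hd := dvd_class a b c x n hnx hx.2.2.1
        have h9 := ph_mul a b c n hd
        have h10 := hpos n hn
        rw [← h9] at h10
        have ha0 : (0 : ℤ) < a := by exact_mod_cast ha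
        exact pos_of_mul_pos_right h10 ha0.le)
    refine q1.trans ?_
    have q2 : 2 * s * mt ≤ 12 * (X / L ^ (J + 2)) := by
      calc 2 * (s : ℝ) * mt ≤ 2 * (2 * (X / L ^ (J + 4))) * (3 * L) := by gcongr
        _ = 12 * (X / L ^ (J + 2)) / L := by
            rw [show J + 4 = J + 2 + 1 + 1 by ring, pow_succ, pow_succ]
            field_simp
            ring
        _ ≤ 12 * (X / L ^ (J + 2)) := div_le_self (by positivity) hL1
    linarith
  -- weights
  obtain ⟨R, hR⟩ : ∃ R, R = (range (a * a)).filter (Adm a b c) := ⟨_, rfl⟩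
  obtain ⟨Wn, hW⟩ : ∃ Wn, Wn = (Ioc M M').filter (Adm a b c) := ⟨_, rfl⟩
  have hRc : R.card = Nat.totient a := by rw [hR]; exact adm_card a b ha hab c hac
  have hGW := sum_classes a b ha c lamI hMle
  rw [← hR, ← hW] at hGW
  rw [← hR] at hw
  obtain ⟨G, hG⟩ : ∃ G, G = ∑ n ∈ Wn, ArithmeticFunction.vonMangoldt n * lamI (ph a b c n) := ⟨_, rfl⟩
  obtain ⟨D, hD⟩ : ∃ D : ℝ, D = (M' : ℝ) - M := ⟨_, rfl⟩
  rw [← hD] at hw ⊢
  have hD1 : X / L ^ W ≤ D := by rw [hD]; linarith
  have hD2 : D ≤ X := by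
    have q1 : (M' : ℝ) ≤ X := by exact_mod_cast hM'
    have q2 : (0 : ℝ) ≤ M := Nat.cast_nonneg _
    rw [hD]
    linarith
  have hD0 : 0 < D := lt_of_lt_of_le hMM0 hD1
  obtain ⟨g1, g2⟩ := k1 (ph a b c) Wn (by
    intro n hn m hm hnm
    rw [mem_coe, hW, mem_filter] at hn hm
    exact ph_inj a b hb c n m hn.2.2.1 hm.2.2.1 hnm) (by
    intro n hn
    rw [hW, mem_filter, mem_Ioc] at hn
    have q1 : n ≤ X := by omega
    constructor
    · nlinarith
    · have q2 := ph_mul a b c n hn.2.2.1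
      have q3 : (b : ℤ) * n ≤ A * X := by exact_mod_cast Nat.mul_le_mul hbA q1
      have q4 := le_abs_self c
      have q5 : (a : ℤ) * ph a b c n ≤ (A + B) * X := by rw [q2]; linarith
      have q6 : (0 : ℤ) ≤ X := by positivity
      push_cast
      by_contra hcon
      push Not at hcon
      have q7 : 0 < ph a b c n := lt_of_le_of_lt (by positivity) hcon
      have q8 : ph a b c n ≤ (a : ℤ) * ph a b c n := by
        have : (1 : ℤ) ≤ a := by exact_mod_cast ha
        nlinarith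
      nlinarith)
  rw [← hG] at g1 g2 hGW
  obtain ⟨cc, hcd⟩ : ∃ cc : ℝ, cc = (cpf (ph a b c) Wn : ℝ) := ⟨_, rfl⟩
  rw [← hcd] at g1 g2
  -- the total error
  obtain ⟨e, he⟩ : ∃ e : ℝ, e = X / L ^ J := ⟨_, rfl⟩
  have he0 : 0 < e := by rw [he]; positivity
  have heL : (X : ℝ) / L ^ (J + 2) = e / L ^ 2 := by rw [he, pow_add]; field_simp
  have hw2 : |G - Nat.totient a * mt * D| ≤ e := by
    have q0 : G - Nat.totient a * mt * D = ∑ x ∈ R, ((GG lamI (wx a x) (ph a b c) M' - GG lamI (wx a x) (ph a b c) M) - mt * D) := by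
      rw [sum_sub_distrib, hGW, sum_const, hRc, nsmul_eq_mul]
      ring
    rw [q0]
    refine (abs_sum_le_sum_abs _ _).trans ((sum_le_sum hw).trans ?_)
    rw [sum_const, hRc, nsmul_eq_mul, heL]
    calc (Nat.totient a : ℝ) * (16 * (e / L ^ 2)) ≤ L * (L * (e / L ^ 2)) := by
          have q3 : (Nat.totient a : ℝ) ≤ L := hφa.trans hLA
          have q4 : 16 * (e / L ^ 2) ≤ L * (e / L ^ 2) := mul_le_mul_of_nonneg_right hL16 (by positivity)
          exact mul_le_mul q3 q4 (by positivity) hL0.le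
      _ = e := by field_simp
  have hw3 : |Nat.totient a * mt * D - S * D| ≤ e := by
    rw [← sub_mul, abs_mul, abs_of_pos hD0, hSS, ← mul_sub, abs_mul, abs_of_nonneg (by linarith : (0 : ℝ) ≤ Nat.totient a)]
    calc (Nat.totient a : ℝ) * |mt - S0| * D ≤ L * (1 / L ^ (J + 2)) * X := by
          have q3 : (Nat.totient a : ℝ) ≤ L := hφa.trans hLA
          have q4 := m1.trans h8z
          exact mul_le_mul (mul_le_mul q3 q4 (abs_nonneg _) hL0.le) hD2 hD0.le (by positivity)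
      _ = e / L := by rw [he, show J + 2 = J + 1 + 1 by ring, pow_succ, pow_succ]; field_simp
      _ ≤ e := div_le_self he0.le hL1
  have hGS : |G - S * D| ≤ 2 * e := by
    have : G - S * D = (G - Nat.totient a * mt * D) + (Nat.totient a * mt * D - S * D) := by ring
    rw [this]
    refine (abs_add_le _ _).trans ?_
    linarith
  obtain ⟨F, hF⟩ : ∃ F, F = S * D := ⟨_, rfl⟩
  have hFl : X / (A * L ^ W) ≤ F := by
    rw [hF]
    calc X / (A * L ^ W) = (1 / A) * (X / L ^ W) := by field_simp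
      _ ≤ S * D := mul_le_mul hS1 hD1 hMM0.le (le_trans (by positivity) hS1)
  have hF0 : 0 < F := lt_of_lt_of_le (by positivity) hFl
  have heF : 3 * e ≤ 3 * η * F := by
    have q2 : e = (A / L ^ 3) * (X / (A * L ^ W)) := by
      rw [he, hJ, pow_add L W 3]
      field_simp
    have q3 : e ≤ η * F := by
      rw [q2]
      have q4 : A / L ^ 3 ≤ η := by
        have q5 : A / η ≤ L := by linarith
        have q6 : L ≤ L ^ 3 := le_self_pow₀ hL1 (by norm_num)
        rw [div_le_iff₀ (by positivity)]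
        rw [div_le_iff₀ hη] at q5
        calc (A : ℝ) ≤ L * η := q5
          _ ≤ L ^ 3 * η := mul_le_mul_of_nonneg_right q6 hη.le
          _ = η * L ^ 3 := mul_comm _ _
      exact mul_le_mul q4 hFl (by positivity) hη.le
    linarith
  have hFd : S * (D / L ^ 2) = F / L ^ 2 := by rw [hF]; ring
  rw [hFd]
  rw [← hF] at hGS
  have gs := abs_le.1 hGS
  rw [← he] at g1 g2
  have hL2 : 0 < L ^ 2 := by positivity
  obtain ⟨x, hx⟩ : ∃ x, x = L ^ 2 * cc := ⟨_, rfl⟩
  have g1' : F - 3 * e ≤ (1 + η) * x := by rw [hx]; linarith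
  have g2' : (1 - η) * x ≤ F + 3 * e := by rw [hx]; linarith
  have hfin := fin_calc ε' η F e x hη hη1 hηε hF0 heF g1' g2'
  have hcx : cc = x / L ^ 2 := by rw [hx]; field_simp
  have hfin2 : |cc - F / L ^ 2| ≤ ε' * (F / L ^ 2) := by
    rw [hcx, ← sub_div, abs_div, abs_of_pos hL2, ← mul_div_assoc]
    exact div_le_div_of_nonneg_right hfin hL2.le
  -- the difference of the counts
  obtain ⟨d1, d2⟩ := cnt_cmp a b c hOk M M'
  rw [← hW] at d1 d2
  have d1r : cc ≤ cntE a b c M M' := by rw [hcd]; exact_mod_cast d1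
  have d2r : (cntE a b c M M' : ℝ) ≤ cc + 2 * a := by rw [hcd]; exact_mod_cast d2
  have hsmall : 2 * (a : ℝ) ≤ ε' * (F / L ^ 2) := by
    have q1 : L ≤ X / L ^ (W + 2) := by
      rw [le_div_iff₀ (by positivity)]
      calc L * L ^ (W + 2) = L ^ (W + 3) := by ring
        _ ≤ L ^ (J + 4) := pow_le_pow_right₀ hL1 (by omega)
        _ ≤ √X := k5
        _ ≤ √X * √X := by
            have : 1 ≤ √(X : ℝ) := (one_le_pow₀ hL1).trans k5
            nlinarith
        _ = X := hss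
    have q2 : L / A ≤ F / L ^ 2 := by
      calc L / A ≤ (X / L ^ (W + 2)) / A := div_le_div_of_nonneg_right q1 (by linarith)
        _ = (X / (A * L ^ W)) / L ^ 2 := by rw [pow_add]; field_simp
        _ ≤ F / L ^ 2 := div_le_div_of_nonneg_right hFl hL2.le
    have q3 : 2 * (A : ℝ) ^ 2 / ε' ≤ L := by linarith
    rw [div_le_iff₀ hε'0] at q3
    calc 2 * (a : ℝ) ≤ 2 * A := by linarith
      _ = (2 * A ^ 2) / A := by field_simp
      _ ≤ (L * ε') / A := div_le_div_of_nonneg_right q3 (by linarith)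
      _ = ε' * (L / A) := by ring
      _ ≤ ε' * (F / L ^ 2) := mul_le_mul_of_nonneg_left q2 hε'0.le
  have hb1 := abs_le.1 hfin2
  have hee : ε * (F / L ^ 2) = ε' * (F / L ^ 2) + ε' * (F / L ^ 2) := by rw [hε']; ring
  rw [hee, abs_le]
  constructor <;> linarith

end Pool.Agent.L7h50.AB
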