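import Mathlib
import Pool.Agent.H560R3.GB.Defs

set_option autoImplicit false

/-! The prime solutions of the linear equation `a p - b q = c`: definitions. -/

namespace Pool.Agent.L7h50.AB

open Finset Pool.Agent.H560R3.GB

/-- The coefficients of the problem: `a, b ≥ 1` and `c ≠ 0` are pairwise relatively prime and not all odd. -/
def Admissible (a b : ℕ) (c : ℤ) : Prop :=
  1 ≤ a ∧ 1 ≤ b ∧ c ≠ 0 ∧ Nat.gcd a b = 1 ∧ Int.gcd b c = 1 ∧ Int.gcd a c = 1 ∧ ¬ (Odd a ∧ Odd b ∧ Odd c)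

/-- The number of the pairs of primes `(p, q)` with `a p - b q = c` and `M < q ≤ M'`. -/
noncomputable def solutions (a b : ℕ) (c : ℤ) (M M' : ℕ) : ℕ :=
  {z : ℕ × ℕ | z.1.Prime ∧ z.2.Prime ∧ (a : ℤ) * z.1 - b * z.2 = c ∧ M < z.2 ∧ z.2 ≤ M'}.ncard

/-- The constant of Hardy and Littlewood: `(2 C₂ / a) ∏ (p - 1) / (p - 2)` over the odd primes `p` dividing `a b c`. -/
noncomputable def density (a b : ℕ) (c : ℤ) : ℝ :=
  2 * C₂ / a * ∏ p ∈ (a * b * c.natAbs).primeFactors.filter (fun p => 2 < p), ((p : ℝ) - 1) / ((p : ℝ) - 2)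

/-- The prediction of Hardy and Littlewood is correct up to a factor between `1 - ε` and `1 + ε` for the number of the
prime solutions of `a p - b q = c` with `M < q ≤ M'`, for all `M`, `M'` with `M' - M ≥ N / log ^ W N` and
`M' ≤ N log ^ W N` (and `b M + c ≥ 0`, which is always so for `c > 0`; all these `q` give `p > 0`). -/
def AsPredicted (ε : ℝ) (W N a b : ℕ) (c : ℤ) : Prop :=
  ∀ M M' : ℕ, (M : ℝ) + N / Real.log N ^ W ≤ M' → (M' : ℝ) ≤ N * Real.log N ^ W → 0 ≤ (b : ℤ) * M + c →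
    |(solutions a b c M M' : ℝ) - density a b c * (((M' : ℝ) - M) / Real.log N ^ 2)| ≤
      ε * (density a b c * (((M' : ℝ) - M) / Real.log N ^ 2))

/-- The prediction is correct (in the sense of `AsPredicted`) for all admissible `a`, `b`, `c` with `a, b ≤ A` and
`|c - y| ≤ log ^ W N`. -/
def AllNear (ε : ℝ) (A W N : ℕ) (y : ℤ) : Prop :=
  ∀ (a b : ℕ) (c : ℤ), a ≤ A → b ≤ A → |(c : ℝ) - y| ≤ Real.log N ^ W → Admissible a b c → AsPredicted ε W N a b c

end Pool.Agent.L7h50.AB
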