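import Pool.Agent.W93.AU15

set_option autoImplicit false

/-! One shift with a given law of total mass at most one (adapted from `Pool.Agent.W93.AU15`). -/

namespace Pool.Agent.L7h50.AB
open Finset
open Pool.Agent.H807R2.Dav
open Pool.Agent.H373R2.T7
open Pool.Agent.W93.DG
open Pool.Agent.W93.RD
open Pool.Agent.W93.TD
open Pool.Agent.W93.AU

lemma cs_w' {α : Type} (Ω : Finset α) (p T : α → ℝ) (hp0 : ∀ v ∈ Ω, 0 ≤ p v) (hp1 : ∑ v ∈ Ω, p v ≤ 1) (D : ℝ) (hD : 0 ≤ D)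
    (h : ∑ v ∈ Ω, p v * T v ^ 2 ≤ D ^ 2) : ∑ v ∈ Ω, p v * |T v| ≤ D := by
  have h1 := Real.sum_mul_le_sqrt_mul_sqrt Ω (fun v => √(p v)) (fun v => √(p v) * |T v|)
  have e1 : ∑ v ∈ Ω, √(p v) * (√(p v) * |T v|) = ∑ v ∈ Ω, p v * |T v| := by
    apply sum_congr rfl
    intro v hv
    rw [← mul_assoc, Real.mul_self_sqrt (hp0 v hv)]
  have e2 : ∑ v ∈ Ω, √(p v) ^ 2 = ∑ v ∈ Ω, p v := by
    apply sum_congr rfl
    intro v hv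
    rw [Real.sq_sqrt (hp0 v hv)]
  have e3 : ∑ v ∈ Ω, (√(p v) * |T v|) ^ 2 = ∑ v ∈ Ω, p v * T v ^ 2 := by
    apply sum_congr rfl
    intro v hv
    rw [mul_pow, Real.sq_sqrt (hp0 v hv), sq_abs]
  rw [e1, e2, e3] at h1
  refine h1.trans ?_
  have h2 : √(∑ v ∈ Ω, p v) ≤ 1 := Real.sqrt_le_one.2 hp1
  have h3 : √(∑ v ∈ Ω, p v * T v ^ 2) ≤ D := Real.sqrt_le_left hD |>.2 h
  calc _ ≤ 1 * D := mul_le_mul h2 h3 (Real.sqrt_nonneg _) zero_le_one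
    _ = D := one_mul _

/-- one shift with a given law -/
theorem one_law' (b F : ℕ) (hb : 2 ≤ b) (hF : 1 ≤ F) (U D : ℕ) : ∃ B0 : ℕ, ∀ Ez : ℕ, ∃ K₀ : ℕ, ∀ K : ℕ, K₀ ≤ K →
    ∀ z : ℕ, Real.log ((b ^ K : ℕ) : ℝ) ^ B0 ≤ z → (z : ℝ) ≤ Real.log ((b ^ K : ℕ) : ℝ) ^ Ez →
    ∀ (ι : Type) (Ω : Finset ι) (p : ι → ℝ) (Y : ι → ℤ), Law b F D (2 * U + 6) K Ω p Y →
    ∀ N : ℕ, (∀ ω ∈ Ω, -((b ^ K : ℕ) : ℤ) < Y ω ∧ (N : ℤ) + Y ω ≤ ((b ^ K : ℕ) : ℤ)) → N ≤ b ^ K →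
    ∀ Kc : ℝ, 0 < Kc → ∀ G : ℕ → ℝ, (∀ n ∈ Icc 1 N, |G n| ≤ Kc) →
    ∑ ω ∈ Ω, p ω * |∑ n ∈ Icc 1 N, G n * (lamI ((n : ℤ) + Y ω) - lamzI z ((n : ℤ) + Y ω))| ≤
      Kc * (((b ^ K : ℕ) : ℝ) / (K : ℝ) ^ U) := by
  classical
  obtain ⟨B, hB⟩ := gl_var b F hb hF (2 * U) D
  refine ⟨B, fun Ez => ?_⟩
  obtain ⟨k₀, h0⟩ := hB Ez
  refine ⟨k₀ + 1, fun K hk z hz1 hz2 ι Ω p Y hlaw N hY hNX Kc hK G hG => ?_⟩
  obtain ⟨f, hf⟩ : ∃ f : ℕ → ℝ, f = fun n => if n ≤ N then G n else 0 := ⟨_, rfl⟩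
  have hf0 : ∀ n, N < n → f n = 0 := by
    intro n hn
    rw [hf]
    simp only
    rw [if_neg (by omega)]
  have hf1 : ∀ n, n ≤ N → f n = G n := by
    intro n hn
    rw [hf]
    simp only
    rw [if_pos hn]
  have h1 := h0 K (by omega) z hz1 hz2 ι Ω p Y hlaw f Kc hK.le (by
    intro n hn
    rcases Nat.lt_or_ge N n with h | h
    · rw [hf0 n h, abs_zero]; exact hK.le
    · rw [hf1 n h]; exact hG n (mem_Icc.2 ⟨(mem_Icc.1 hn).1, h⟩))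
    (fun r => (starRingEnd ℂ) (FF f (b ^ K) (b ^ (K + 1)) r) *
        FF (fun n => ArithmeticFunction.vonMangoldt n - lamz z n) (b ^ K) (b ^ (K + 1)) r) (by
      intro r
      rw [norm_mul, RCLike.norm_conj])
  have hbn : 0 < b := by omega
  have hX1 : 1 ≤ b ^ K := Nat.pow_pos hbn
  have hM0 : (0 : ℝ) < ((b ^ (K + 1) : ℕ) : ℝ) := by exact_mod_cast Nat.pow_pos hbn
  have hX0 : (0 : ℝ) < ((b ^ K : ℕ) : ℝ) := by exact_mod_cast hX1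
  have hk0 : (0 : ℝ) < K := by exact_mod_cast (by omega : 0 < K)
  apply cs_w' Ω p _ hlaw.nonneg hlaw.le_one _ (by positivity)
  obtain ⟨T, hT⟩ : ∃ T : ι → ℝ, T = fun ω => ∑ n ∈ Icc 1 N, G n * (lamI ((n : ℤ) + Y ω) - lamzI z ((n : ℤ) + Y ω)) := ⟨_, rfl⟩
  have h2 : ∀ ω ∈ Ω, p ω * ‖EE (fun r => (starRingEnd ℂ) (FF f (b ^ K) (b ^ (K + 1)) r) *
      FF (fun n => ArithmeticFunction.vonMangoldt n - lamz z n) (b ^ K) (b ^ (K + 1)) r) (b ^ (K + 1)) (Y ω)‖ ^ 2 =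
      ((b ^ (K + 1) : ℕ) : ℝ) ^ 2 * (p ω * T ω ^ 2) := by
    intro ω hω
    have hMX : 2 * b ^ K ≤ b ^ (K + 1) := by
      rw [pow_succ, mul_comm]
      exact Nat.mul_le_mul_left _ hb
    have h3 := EE_corr f (fun n => ArithmeticFunction.vonMangoldt n - lamz z n) (b ^ K) (b ^ (K + 1)) N hX1 hMX
      hNX hf0 (Y ω) (hY ω hω).1 (hY ω hω).2
    rw [h3, Complex.norm_real, Real.norm_eq_abs, sq_abs]
    have h4 : ∑ n ∈ Icc 1 N, f n * (if 1 ≤ (n : ℤ) + Y ω then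
        (fun n => ArithmeticFunction.vonMangoldt n - lamz z n) ((n : ℤ) + Y ω).toNat else 0) = T ω := by
      rw [hT]
      simp only
      apply sum_congr rfl
      intro n hn
      rw [mem_Icc] at hn
      rw [hf1 n hn.2]
      unfold lamI lamzI
      by_cases h7 : 1 ≤ (n : ℤ) + Y ω
      · rw [if_pos h7, if_pos h7, if_pos h7]
      · rw [if_neg h7, if_neg h7, if_neg h7, sub_zero]
    rw [h4]
    ring
  rw [sum_congr rfl h2, ← mul_sum] at h1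
  have h5 : ∑ ω ∈ Ω, p ω * T ω ^ 2 ≤ (Kc * (((b ^ K : ℕ) : ℝ) / (K : ℝ) ^ U)) ^ 2 := by
    have h6 : ((b ^ (K + 1) : ℕ) : ℝ) ^ 2 * ∑ ω ∈ Ω, p ω * T ω ^ 2 ≤
        ((b ^ (K + 1) : ℕ) : ℝ) ^ 2 * (Kc * (((b ^ K : ℕ) : ℝ) / (K : ℝ) ^ U)) ^ 2 := by
      refine h1.trans (le_of_eq ?_)
      rw [mul_comm 2 U, pow_mul]
      ring
    exact le_of_mul_le_mul_left h6 (by positivity)
  rw [hT] at h5
  exact h5

end Pool.Agent.L7h50.AB
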