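import Pool.Agent.W93.AU15

set_option autoImplicit false

/-! Digits of a frequency and of its quotients by a small number. -/

namespace Pool.Agent.L7h50.AB
open Finset
open Pool.Agent.W93.DG
open Pool.Agent.W93.RD

/-- a chain of extremal positions -/
lemma ext_chain (b k r T : ℕ) (hb : 2 ≤ b) (h : ∀ i, k ≤ i → i < k + r → Ext b i T) (hr : 1 ≤ r) :
    (∀ s ≤ r, T / b ^ (k + s) % b = 0) ∨ (∀ s ≤ r, T / b ^ (k + s) % b = b - 1) := by
  have h0 := h k le_rfl (by omega)
  unfold Pool.Agent.W93.DG.Ext at h0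
  rcases h0 with h1 | h1
  · left
    intro s
    induction s with
    | zero => intro _; rw [add_zero]; exact h1.1
    | succ s ih =>
      intro hs
      have h2 := ih (by omega)
      have h3 := h (k + s) (by omega) (by omega)
      unfold Pool.Agent.W93.DG.Ext at h3
      rcases h3 with h4 | h4
      · exact h4.2
      · rw [h2] at h4
        omega
  · right
    intro s
    induction s with
    | zero => intro _; rw [add_zero]; exact h1.1
    | succ s ih =>
      intro hs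
      have h2 := ih (by omega)
      have h3 := h (k + s) (by omega) (by omega)
      unfold Pool.Agent.W93.DG.Ext at h3
      rcases h3 with h4 | h4
      · rw [h2] at h4
        omega
      · exact h4.2

/-- after a chain of extremal positions the frequency is close to an integer -/
lemma ext_near (b k r T : ℕ) (hb : 2 ≤ b) (h : ∀ i, k ≤ i → i < k + r → Ext b i T) (hr : 1 ≤ r) :
    ∃ n : ℤ, |(T : ℝ) / (b : ℝ) ^ (k + r + 1) - n| ≤ 1 / (b : ℝ) ^ (r + 1) := by
  have hbn : 0 < b := by omega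
  have hb0 : (0 : ℝ) < b := by exact_mod_cast hbn
  obtain ⟨x, hx⟩ : ∃ x, x = T / b ^ k := ⟨_, rfl⟩
  have hdig : ∀ s, T / b ^ (k + s) % b = x / b ^ s % b := by
    intro s
    rw [hx, Nat.div_div_eq_div_mul, ← pow_add]
  obtain ⟨n, hn⟩ : ∃ n, n = x / b ^ (r + 1) := ⟨_, rfl⟩
  obtain ⟨ρ, hρ⟩ : ∃ ρ, ρ = x % b ^ (r + 1) := ⟨_, rfl⟩
  obtain ⟨w, hw⟩ : ∃ w, w = T % b ^ k := ⟨_, rfl⟩
  have hwlt : w < b ^ k := by rw [hw]; exact Nat.mod_lt _ (Nat.pow_pos hbn)
  have e1 : x = ρ + b ^ (r + 1) * n := by rw [hρ, hn]; exact (Nat.mod_add_div _ _).symm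
  have e2 : T = w + b ^ k * x := by rw [hw, hx]; exact (Nat.mod_add_div _ _).symm
  have hTr : (T : ℝ) / (b : ℝ) ^ (k + r + 1) = n + (ρ * (b : ℝ) ^ k + w) / (b : ℝ) ^ (k + r + 1) := by
    have e3 : (T : ℝ) = w + (b : ℝ) ^ k * (ρ + (b : ℝ) ^ (r + 1) * n) := by
      have : T = w + b ^ k * (ρ + b ^ (r + 1) * n) := by rw [← e1]; exact e2
      exact_mod_cast this
    rw [e3, show k + r + 1 = k + (r + 1) by ring, pow_add]
    field_simp
    ring
  have hp : (0 : ℝ) < (b : ℝ) ^ (k + r + 1) := by positivity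
  have hwr : (w : ℝ) < (b : ℝ) ^ k := by exact_mod_cast hwlt
  have hw0 : (0 : ℝ) ≤ w := Nat.cast_nonneg _
  have hsplit : (1 : ℝ) / (b : ℝ) ^ (r + 1) = (b : ℝ) ^ k / (b : ℝ) ^ (k + r + 1) := by
    rw [div_eq_div_iff (by positivity) (by positivity), one_mul, ← pow_add]
    congr 1
  rcases ext_chain b k r T hb h hr with h0 | h0
  · have h1 : ∀ s ≤ r + 1, x % b ^ s = 0 := by
      intro s
      induction s with
      | zero => intro _; simp [Nat.mod_one]
      | succ s ih =>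
        intro hs
        have h2 := h0 s (by omega)
        rw [hdig] at h2
        rw [Nat.mod_pow_succ, ih (by omega), h2, mul_zero, add_zero]
    have h2 := h1 (r + 1) le_rfl
    rw [← hρ] at h2
    refine ⟨n, ?_⟩
    rw [hTr, h2]
    push_cast
    rw [zero_mul, zero_add, add_sub_cancel_left, abs_of_nonneg (by positivity), hsplit]
    exact div_le_div_of_nonneg_right hwr.le hp.le
  · have h1 : ∀ s ≤ r + 1, x % b ^ s + 1 = b ^ s := by
      intro s
      induction s with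
      | zero => intro _; simp [Nat.mod_one]
      | succ s ih =>
        intro hs
        have h2 := h0 s (by omega)
        rw [hdig] at h2
        rw [Nat.mod_pow_succ, h2]
        have h3 := ih (by omega)
        have h4 : b ^ (s + 1) = b ^ s * (b - 1) + b ^ s := by
          rw [pow_succ, Nat.mul_sub_one, Nat.sub_add_cancel]
          exact Nat.le_mul_of_pos_right _ hbn
        omega
    have h2 := h1 (r + 1) le_rfl
    rw [← hρ] at h2
    refine ⟨n + 1, ?_⟩
    have h3 : (ρ : ℝ) = (b : ℝ) ^ (r + 1) - 1 := by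
      have : (ρ : ℝ) + 1 = (b : ℝ) ^ (r + 1) := by exact_mod_cast h2
      linarith
    rw [hTr, h3]
    push_cast
    have e4 : (n : ℝ) + (((b : ℝ) ^ (r + 1) - 1) * (b : ℝ) ^ k + w) / (b : ℝ) ^ (k + r + 1) - (n + 1) =
        -(((b : ℝ) ^ k - w) / (b : ℝ) ^ (k + r + 1)) := by
      have e5 : (b : ℝ) ^ (k + r + 1) = (b : ℝ) ^ (r + 1) * (b : ℝ) ^ k := by rw [← pow_add]; congr 1; ring
      rw [e5]
      field_simp
      ring
    rw [e4, abs_neg, abs_of_nonneg (div_nonneg (by linarith) hp.le), hsplit]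
    apply div_le_div_of_nonneg_right _ hp.le
    linarith

/-- the number of the positions which are not extremal does not decrease much when a frequency is divided by `a` -/
theorem ne_quot (b K e r F a t t' l : ℕ) (hb : 2 ≤ b) (ha : 1 ≤ a) (hr : 1 ≤ r) (hre : r ≤ e)
    (h1 : 2 * a * b ^ 2 ≤ b ^ r) (h2 : 2 * a * F * b ^ 2 ≤ b ^ e)
    (h : |(a : ℝ) * ((t' : ℝ) / (b : ℝ) ^ (K + e + 1)) - ((t : ℝ) / (b : ℝ) ^ (K + 1) + l)| ≤ a / (b : ℝ) ^ (K + e + 1)) :
    ne b 0 K ((F * t) % b ^ (K + 1)) ≤ r * ne b 0 (K + e) ((F * t') % b ^ (K + e + 1)) := by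
  classical
  have hbn : 0 < b := by omega
  have hb0 : (0 : ℝ) < b := by exact_mod_cast hbn
  have hb1 : (1 : ℝ) ≤ b := by exact_mod_cast hbn
  obtain ⟨S, hS⟩ : ∃ S, S = (Ico 0 (0 + K)).filter (fun j => ¬ Ext b j ((F * t) % b ^ (K + 1))) := ⟨_, rfl⟩
  obtain ⟨S', hS'⟩ : ∃ S', S' = (Ico 0 (0 + (K + e))).filter (fun j => ¬ Ext b j ((F * t') % b ^ (K + e + 1))) := ⟨_, rfl⟩
  have key : ∀ i, ∃ i' : ℕ, i ∈ S → i' ∈ S' ∧ i + e + 1 ≤ i' + r ∧ i' < i + e + 1 := by
    intro i
    by_cases hi : i ∈ S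
    swap
    · exact ⟨0, fun h => absurd h hi⟩
    rw [hS, mem_filter, mem_Ico] at hi
    obtain ⟨⟨_, hiK⟩, hext⟩ := hi
    rw [zero_add] at hiK
    rw [Ext_mod b i K _ hiK] at hext
    have hfar := ext_dist b i (F * t) hb hext
    have hex : ∃ i', i + e + 1 ≤ i' + r ∧ i' < i + e + 1 ∧ ¬ Ext b i' (F * t') := by
      by_contra hcon
      push Not at hcon
      obtain ⟨n, hn⟩ := ext_near b (i + e + 1 - r) r (F * t') hb (fun i' q1 q2 => hcon i' (by omega) (by omega)) hr
      have e1 : i + e + 1 - r + r + 1 = i + e + 2 := by omega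
      rw [e1] at hn
      obtain ⟨j, hj⟩ : ∃ j, K = i + 1 + j := ⟨K - (i + 1), by omega⟩
      have hf := hfar ((a : ℤ) * n - F * b ^ j * l)
      obtain ⟨P, hP⟩ : ∃ P : ℝ, P = (b : ℝ) ^ (i + e + 2) := ⟨_, rfl⟩
      obtain ⟨Q, hQ⟩ : ∃ Q : ℝ, Q = (b : ℝ) ^ j := ⟨_, rfl⟩
      obtain ⟨R, hR⟩ : ∃ R : ℝ, R = (b : ℝ) ^ (i + 2) := ⟨_, rfl⟩
      have hP0 : 0 < P := by rw [hP]; positivity
      have hQ0 : 0 < Q := by rw [hQ]; positivity
      have hR0 : 0 < R := by rw [hR]; positivity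
      have e2 : (b : ℝ) ^ (K + e + 1) = Q * P := by rw [hP, hQ, ← pow_add]; congr 1; omega
      have e3 : (b : ℝ) ^ (K + 1) = Q * R := by rw [hR, hQ, ← pow_add]; congr 1; omega
      have e4 : P = R * (b : ℝ) ^ e := by rw [hP, hR, ← pow_add]; congr 1; omega
      rw [← hP] at hn
      rw [← hR] at hf
      rw [e2, e3] at h
      -- multiply `h` by `F Q`
      have h3 : |(F : ℝ) * Q * ((a : ℝ) * ((t' : ℝ) / (Q * P)) - ((t : ℝ) / (Q * R) + l))| ≤ F * Q * (a / (Q * P)) := by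
        rw [abs_mul, abs_of_nonneg (by positivity : (0 : ℝ) ≤ F * Q)]
        exact mul_le_mul_of_nonneg_left h (by positivity)
      have h4 : (F : ℝ) * Q * ((a : ℝ) * ((t' : ℝ) / (Q * P)) - ((t : ℝ) / (Q * R) + l)) =
          a * (F * t' / P) - (F * t / R + F * Q * l) := by field_simp
      have h5 : (F : ℝ) * Q * (a / (Q * P)) = a * F / P := by field_simp
      rw [h4, h5] at h3
      have h6 : |(a : ℝ) * ((F * t' : ℕ) / P - n)| ≤ a * (1 / (b : ℝ) ^ (r + 1)) := by
        rw [abs_mul, abs_of_nonneg (by positivity : (0 : ℝ) ≤ a)]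
        exact mul_le_mul_of_nonneg_left hn (by positivity)
      have h7 : (((F * t : ℕ) : ℝ) / R - (((a : ℤ) * n - F * b ^ j * l : ℤ) : ℝ)) =
          a * (((F * t' : ℕ) : ℝ) / P - n) - (a * (F * t' / P) - (F * t / R + F * Q * l)) := by
        push_cast
        rw [hQ]
        ring
      rw [h7] at hf
      have h8 := (abs_sub _ _).trans (add_le_add h6 h3)
      have h9 := hf.trans h8
      have g1 : (a : ℝ) * (1 / (b : ℝ) ^ (r + 1)) ≤ (1 / (b : ℝ) ^ 2) * (1 / 4) := by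
        have q1 : 2 * (a : ℝ) * (b : ℝ) ^ 2 ≤ (b : ℝ) ^ r := by exact_mod_cast h1
        have q2 : (b : ℝ) ^ (r + 1) = (b : ℝ) ^ r * b := pow_succ _ _
        have q3 : (2 : ℝ) ≤ b := by exact_mod_cast hb
        rw [mul_one_div, div_mul_div_comm, div_le_div_iff₀ (by positivity) (by positivity), q2]
        have q4 : 0 ≤ (a : ℝ) * (b : ℝ) ^ 2 := by positivity
        nlinarith
      have g2 : (a : ℝ) * F / P ≤ (1 / (b : ℝ) ^ 2) * (1 / 4) := by
        have q1 : 2 * (a : ℝ) * F * (b : ℝ) ^ 2 ≤ (b : ℝ) ^ e := by exact_mod_cast h2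
        have q3 : (2 : ℝ) ≤ b := by exact_mod_cast hb
        have q5 : (2 : ℝ) ≤ R := by
          rw [hR]
          calc (2 : ℝ) ≤ b := q3
            _ ≤ (b : ℝ) ^ (i + 2) := le_self_pow₀ hb1 (by omega)
        rw [div_mul_div_comm, div_le_div_iff₀ (by positivity) (by positivity), e4]
        have q6 : 0 ≤ (a : ℝ) * F * (b : ℝ) ^ 2 := by positivity
        have q7 : 0 < (b : ℝ) ^ e := by positivity
        nlinarith
      have g3 : (0 : ℝ) < 1 / (b : ℝ) ^ 2 := by positivity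
      linarith
    obtain ⟨i', q1, q2, q3⟩ := hex
    refine ⟨i', fun _ => ⟨?_, q1, q2⟩⟩
    rw [hS', mem_filter, mem_Ico]
    refine ⟨⟨Nat.zero_le _, by omega⟩, ?_⟩
    rwa [Ext_mod b i' (K + e) _ (by omega)]
  choose f hf using key
  have hne : ne b 0 K ((F * t) % b ^ (K + 1)) = S.card := by rw [hS]; rfl
  have hne' : ne b 0 (K + e) ((F * t') % b ^ (K + e + 1)) = S'.card := by rw [hS']; rfl
  rw [hne, hne']
  have hsub : S.image f ⊆ S' := by
    intro y hy
    rw [mem_image] at hy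
    obtain ⟨i, hi, rfl⟩ := hy
    exact (hf i hi).1
  have hc := card_le_mul_card_image (s := S) (f := f) r (by
    intro y _
    have hsub2 : S.filter (fun x => f x = y) ⊆ Ico (y - e) (y - e + r) := by
      intro i hi
      rw [mem_filter] at hi
      obtain ⟨_, q1, q2⟩ := hf i hi.1
      rw [hi.2] at q1 q2
      rw [mem_Ico]
      omega
    refine (card_le_card hsub2).trans ?_
    rw [Nat.card_Ico]
    omega)
  exact hc.trans (Nat.mul_le_mul_left _ (card_le_card hsub))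

end Pool.Agent.L7h50.AB
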