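import Pool.Agent.L7h50.AB.L1
import Pool.Agent.L7h50.AB.L2
import Pool.Agent.N625.DY.L

set_option autoImplicit false

/-! The law of the quotients by a small number, for a class of distributions. -/

namespace Pool.Agent.L7h50.AB
open Finset
open Pool.Agent.H807R2.Dav (ee norm_ee ee_add ee_int)
open Pool.Agent.H373R2.T7 (orth)
open Pool.Agent.W93.AU (Law)
open Pool.Agent.W93.DG (ne)
open Pool.Agent.N625.DY (Cls ClsV)

lemma ee_lip (x y : ℝ) : ‖ee x - ee y‖ ≤ 7 * |x - y| := by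
  have h1 : ee x - ee y = ee y * (ee (x - y) - 1) := by
    rw [mul_sub, ← ee_add, mul_one]
    congr 2
    ring
  rw [h1, norm_mul, norm_ee, one_mul]
  have h2 := Real.norm_exp_I_mul_ofReal_sub_one_le (x := 2 * Real.pi * (x - y))
  rw [Pool.Agent.H807R2.Dav.ee_eq']
  refine h2.trans ?_
  rw [Real.norm_eq_abs, abs_mul, abs_of_pos (by positivity : (0 : ℝ) < 2 * Real.pi)]
  apply mul_le_mul_of_nonneg_right _ (abs_nonneg _)
  linarith [Real.pi_lt_d2]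

/-- the characteristic function of the quotients -/
lemma cond_char (a : ℕ) (ha : 1 ≤ a) {ι : Type} (Ω : Finset ι) (p : ι → ℝ) (Y : ι → ℤ) (θ : ℝ) :
    ∑ ω ∈ Ω, (((if (a : ℤ) ∣ Y ω then p ω else 0 : ℝ)) : ℂ) * ee (((Y ω / (a : ℤ) : ℤ) : ℝ) * θ) =
      (1 / (a : ℂ)) * ∑ l ∈ range a, ∑ ω ∈ Ω, ((p ω : ℝ) : ℂ) * ee ((Y ω : ℝ) * ((θ + l) / a)) := by
  have ha0 : (0 : ℝ) < a := by exact_mod_cast ha
  have hac : (a : ℂ) ≠ 0 := by exact_mod_cast ha0.ne'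
  rw [sum_comm, mul_sum]
  apply sum_congr rfl
  intro ω _
  have h1 : ∑ l ∈ range a, ((p ω : ℝ) : ℂ) * ee ((Y ω : ℝ) * ((θ + l) / a)) =
      ((p ω : ℝ) : ℂ) * (ee ((Y ω : ℝ) * θ / a) * ∑ l ∈ range a, ee ((l : ℝ) * ((Y ω : ℝ) / a))) := by
    rw [mul_sum, mul_sum]
    apply sum_congr rfl
    intro l _
    rw [← ee_add]
    congr 2
    ring
  rw [h1, orth a ha (Y ω)]
  by_cases hd : (a : ℤ) ∣ Y ω
  · rw [if_pos hd, if_pos hd]
    have h2 : (((Y ω / (a : ℤ) : ℤ) : ℝ) * θ) = (Y ω : ℝ) * θ / a := by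
      obtain ⟨m, hm⟩ := hd
      have ha' : (a : ℤ) ≠ 0 := by exact_mod_cast (by omega : a ≠ 0)
      rw [hm, Int.mul_ediv_cancel_left _ ha']
      push_cast
      field_simp
    rw [h2]
    field_simp
  · rw [if_neg hd, if_neg hd]
    simp

lemma pow_log_ge (b V K : ℕ) (hb : 2 ≤ b) : (K : ℝ) ^ V ≤ (b : ℝ) ^ (V * (Nat.log b K + 1)) := by
  have h1 : (K : ℝ) ≤ (b : ℝ) ^ (Nat.log b K + 1) := by
    exact_mod_cast (Nat.lt_pow_succ_log_self (by omega) K).le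
  rw [mul_comm, pow_mul]
  exact pow_le_pow_left₀ (Nat.cast_nonneg _) h1 V

set_option maxHeartbeats 1000000 in
theorem cond_law {b : ℕ} {κ : ℤ} {C : ℕ → (ℕ → ℝ) → Prop} (hC : ClsV b κ C) (A : ℕ) : ∃ F : ℕ, 1 ≤ F ∧ ∀ τ V : ℕ, ∃ D K₀ : ℕ,
    ∀ K : ℕ, K₀ ≤ K → ∀ m e, K = m + e → e ≤ τ * (Nat.log b K + 1) → ∀ p, C m p → ∀ cc : ℤ, ∀ a : ℕ, 1 ≤ a → a ≤ A →
    Law b F D V K (range (b ^ m)) (fun v => if (a : ℤ) ∣ cc + κ * (v : ℕ) then p v else 0) (fun v => (cc + κ * (v : ℕ)) / (a : ℤ)) := by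
  have hb := hC.two
  have hbn : 0 < b := by omega
  have hb0 : (0 : ℝ) < b := by exact_mod_cast hbn
  have hb1 : (1 : ℝ) ≤ b := by exact_mod_cast hbn
  obtain ⟨F, hF, hlaw⟩ := hC.law'
  refine ⟨F, hF, fun τ V => ?_⟩
  obtain ⟨r, hr⟩ : ∃ r, r = 2 * A * b ^ 2 + 1 := ⟨_, rfl⟩
  have hrp : 2 * A * b ^ 2 ≤ b ^ r := by
    have := Nat.lt_pow_self (n := r) (a := b) (by omega)
    omega
  obtain ⟨R0, hR0⟩ : ∃ R0, R0 = 2 * A * F * b ^ 2 + 14 * κ.natAbs + r := ⟨_, rfl⟩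
  have hR0p : R0 < b ^ R0 := Nat.lt_pow_self (by omega)
  obtain ⟨D₁, K₁, hD⟩ := hlaw (τ + V + 2 + R0) (V + 1)
  refine ⟨2 * r * D₁, K₁ + 2 * V + R0 + 10, fun K hK m e hKm he p hp cc a ha haA => ?_⟩
  have hp0 := hC.nonneg m p hp
  have hp1 := hC.sum m p hp
  refine ⟨fun v _ => ?_, ?_, fun t ht => ?_⟩
  · split_ifs
    · exact hp0 v
    · exact le_rfl
  · rw [← hp1]
    apply sum_le_sum
    intro v _
    split_ifs
    · exact le_rfl
    · exact hp0 v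
  -- the finer grid
  obtain ⟨l0, hl0⟩ : ∃ l0, l0 = Nat.log b K + 1 := ⟨_, rfl⟩
  rw [← hl0] at he ht
  have hl01 : 1 ≤ l0 := by omega
  obtain ⟨e2, he2⟩ : ∃ e2, e2 = (V + 2) * l0 + R0 := ⟨_, rfl⟩
  obtain ⟨K', hK'⟩ : ∃ K', K' = K + e2 := ⟨_, rfl⟩
  have hlogK : Nat.log b K ≤ K := Nat.log_le_self b K
  have hK'sq : K' ≤ K * K := by
    have q1 : l0 ≤ K + 1 := by omega
    have q2 : (V + 2) * l0 ≤ (V + 2) * (K + 1) := Nat.mul_le_mul_left _ q1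
    have q3 : (2 * V + R0 + 10) * K ≤ K * K := Nat.mul_le_mul_right _ (by omega)
    nlinarith
  have hlogK' : Nat.log b K' + 1 ≤ 2 * l0 := by
    have q1 : K < b ^ l0 := by rw [hl0]; exact Nat.lt_pow_succ_log_self (by omega) K
    have q2 : K' < b ^ (2 * l0) := by
      calc K' ≤ K * K := hK'sq
        _ < b ^ l0 * b ^ l0 := Nat.mul_lt_mul'' q1 q1
        _ = b ^ (2 * l0) := by rw [← pow_add]; congr 1; ring
    have := Nat.log_lt_of_lt_pow (by omega) q2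
    omega
  have hlogKK' : l0 ≤ Nat.log b K' + 1 := by
    rw [hl0]
    have := Nat.log_mono_right (b := b) (show K ≤ K' by omega)
    omega
  have hee : e + e2 ≤ (τ + V + 2 + R0) * (Nat.log b K' + 1) := by
    calc e + e2 ≤ τ * l0 + ((V + 2) * l0 + R0) := by omega
      _ ≤ τ * l0 + ((V + 2) * l0 + R0 * l0) := by
          have := Nat.le_mul_of_pos_right R0 hl01
          omega
      _ = (τ + V + 2 + R0) * l0 := by ring
      _ ≤ _ := Nat.mul_le_mul_left _ hlogKK'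
  have hL := (hD K' (by omega) m (e + e2) (by omega) hee p hp 0).char
  obtain ⟨M, hM⟩ : ∃ M : ℝ, M = (b : ℝ) ^ (K + 1) := ⟨_, rfl⟩
  obtain ⟨M', hM'⟩ : ∃ M' : ℝ, M' = (b : ℝ) ^ (K' + 1) := ⟨_, rfl⟩
  have hM0 : 0 < M := by rw [hM]; positivity
  have hM'0 : 0 < M' := by rw [hM']; positivity
  have ha0 : (0 : ℝ) < a := by exact_mod_cast ha
  have hKn : 0 < K := by omega
  have hK1 : (1 : ℝ) ≤ K := by exact_mod_cast (by omega : 1 ≤ K)
  have hMc : ((b ^ (K + 1) : ℕ) : ℝ) = M := by rw [hM]; push_cast; rfl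
  have hMc' : ((b ^ (K' + 1) : ℕ) : ℝ) = M' := by rw [hM']; push_cast; rfl
  rw [hMc]
  rw [hMc'] at hL
  rw [cond_char a ha (range (b ^ m)) p (fun v => cc + κ * (v : ℕ)) ((t : ℝ) / M), norm_mul, norm_div, norm_one, Complex.norm_natCast]
  -- each frequency
  have hterm : ∀ l ∈ range a, ‖∑ ω ∈ range (b ^ m), ((p ω : ℝ) : ℂ) * ee (((cc + κ * (ω : ℕ) : ℤ) : ℝ) * (((t : ℝ) / M + l) / a))‖ ≤
      1 / (K : ℝ) ^ V := by
    intro l _
    obtain ⟨θ, hθ⟩ : ∃ θ : ℝ, θ = ((t : ℝ) / M + l) / a := ⟨_, rfl⟩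
    rw [← hθ]
    have hθ0 : 0 ≤ θ := by rw [hθ]; positivity
    obtain ⟨t', ht'⟩ : ∃ t' : ℕ, t' = ⌊M' * θ⌋₊ := ⟨_, rfl⟩
    have f1 : (t' : ℝ) ≤ M' * θ := by rw [ht']; exact Nat.floor_le (by positivity)
    have f2 : M' * θ < t' + 1 := by rw [ht']; exact Nat.lt_floor_add_one _
    have f3 : |θ - t' / M'| ≤ 1 / M' := by
      have e1 : θ - t' / M' = (M' * θ - t') / M' := by field_simp
      rw [e1, abs_div, abs_of_pos hM'0, abs_of_nonneg (by linarith)]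
      exact div_le_div_of_nonneg_right (by linarith) hM'0.le
    have f4 : |(a : ℝ) * ((t' : ℝ) / M') - ((t : ℝ) / M + l)| ≤ a / M' := by
      have e1 : (a : ℝ) * ((t' : ℝ) / M') - ((t : ℝ) / M + l) = -(a * (θ - t' / M')) := by
        rw [hθ]
        field_simp
        ring
      rw [e1, abs_neg, abs_mul, abs_of_pos ha0]
      calc (a : ℝ) * |θ - t' / M'| ≤ a * (1 / M') := mul_le_mul_of_nonneg_left f3 ha0.le
        _ = a / M' := by ring
    have hne := ne_quot b K e2 r F a t t' l hb ha (by omega) (by omega) (by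
        have : 2 * a * b ^ 2 ≤ 2 * A * b ^ 2 := Nat.mul_le_mul_right _ (by omega)
        omega) (by
        have q1 : 2 * a * F * b ^ 2 ≤ 2 * A * F * b ^ 2 := Nat.mul_le_mul_right _ (Nat.mul_le_mul_right _ (by omega))
        have q2 : b ^ R0 ≤ b ^ e2 := Nat.pow_le_pow_right hbn (by omega)
        omega) (by rw [← hK', ← hM, ← hM']; exact f4)
    rw [← hK'] at hne
    have hne2 : D₁ * (Nat.log b K' + 1) ≤ ne b 0 K' ((F * t') % b ^ (K' + 1)) := by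
      have q1 : 2 * r * D₁ * l0 ≤ r * ne b 0 K' ((F * t') % b ^ (K' + 1)) := ht.trans hne
      have q2 : r * (D₁ * (Nat.log b K' + 1)) ≤ r * ne b 0 K' ((F * t') % b ^ (K' + 1)) := by
        refine le_trans ?_ q1
        calc r * (D₁ * (Nat.log b K' + 1)) ≤ r * (D₁ * (2 * l0)) := Nat.mul_le_mul_left _ (Nat.mul_le_mul_left _ hlogK')
          _ = 2 * r * D₁ * l0 := by ring
      exact Nat.le_of_mul_le_mul_left q2 (by omega)
    have hch := hL t' hne2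
    have g1 : ∑ ω ∈ range (b ^ m), ((p ω : ℝ) : ℂ) * ee (((cc + κ * (ω : ℕ) : ℤ) : ℝ) * θ) =
        ee (cc * θ) * ∑ ω ∈ range (b ^ m), ((p ω : ℝ) : ℂ) * ee ((κ * (ω : ℕ) : ℝ) * θ) := by
      rw [mul_sum]
      apply sum_congr rfl
      intro ω _
      have e1 : ee (((cc + κ * (ω : ℕ) : ℤ) : ℝ) * θ) = ee (cc * θ) * ee ((κ * (ω : ℕ) : ℝ) * θ) := by
        rw [← ee_add]
        congr 1
        push_cast
        ring
      rw [e1]
      ring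
    rw [g1, norm_mul, norm_ee, one_mul]
    have g2 : ∑ ω ∈ range (b ^ m), ((p ω : ℝ) : ℂ) * ee ((κ * (ω : ℕ) : ℝ) * θ) =
        ∑ ω ∈ range (b ^ m), ((p ω : ℝ) : ℂ) * ee (((0 + κ * (ω : ℕ) : ℤ) : ℝ) * ((t' : ℝ) / M')) +
        ∑ ω ∈ range (b ^ m), ((p ω : ℝ) : ℂ) * (ee ((κ * (ω : ℕ) : ℝ) * θ) - ee ((κ * (ω : ℕ) : ℝ) * (t' / M'))) := by
      rw [← sum_add_distrib]
      apply sum_congr rfl
      intro ω _
      push_cast
      ring_nf
    rw [g2]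
    refine (norm_add_le _ _).trans ?_
    have g3 : ‖∑ ω ∈ range (b ^ m), ((p ω : ℝ) : ℂ) * (ee ((κ * (ω : ℕ) : ℝ) * θ) - ee ((κ * (ω : ℕ) : ℝ) * (t' / M')))‖ ≤
        1 / 2 / (K : ℝ) ^ V := by
      refine (norm_sum_le _ _).trans ?_
      have q1 : ∀ ω ∈ range (b ^ m), ‖((p ω : ℝ) : ℂ) * (ee ((κ * (ω : ℕ) : ℝ) * θ) - ee ((κ * (ω : ℕ) : ℝ) * (t' / M')))‖ ≤
          p ω * (1 / 2 / (K : ℝ) ^ V) := by
        intro ω hω
        rw [mem_range] at hω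
        rw [norm_mul, Complex.norm_real, Real.norm_of_nonneg (hp0 ω)]
        apply mul_le_mul_of_nonneg_left _ (hp0 ω)
        refine (ee_lip _ _).trans ?_
        rw [← mul_sub, abs_mul, abs_mul]
        have q2 : |((ω : ℕ) : ℝ)| ≤ (b : ℝ) ^ m := by
          rw [Nat.abs_cast]
          exact_mod_cast hω.le
        have q3 : |(κ : ℝ)| = (κ.natAbs : ℝ) := by
          rw [Nat.cast_natAbs, Int.cast_abs]
        have q4 : (14 : ℝ) * κ.natAbs ≤ (b : ℝ) ^ R0 := by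
          exact_mod_cast (by omega : 14 * κ.natAbs ≤ b ^ R0)
        have q5 : (K : ℝ) ^ V ≤ (b : ℝ) ^ (V * l0) := by rw [hl0]; exact pow_log_ge b V K hb
        have q6 : M' = (b : ℝ) ^ m * (b : ℝ) ^ R0 * (b : ℝ) ^ (V * l0) * (b : ℝ) ^ (e + 2 * l0 + 1) := by
          rw [hM', ← pow_add, ← pow_add, ← pow_add]
          congr 1
          rw [hK', he2, hKm]
          ring
        have q7 : (1 : ℝ) ≤ (b : ℝ) ^ (e + 2 * l0 + 1) := one_le_pow₀ hb1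
        rw [q3]
        calc 7 * ((κ.natAbs : ℝ) * |((ω : ℕ) : ℝ)| * |θ - t' / M'|) ≤ 7 * ((κ.natAbs : ℝ) * (b : ℝ) ^ m * (1 / M')) := by
              gcongr
          _ = (14 * κ.natAbs * (b : ℝ) ^ m / 2) / M' := by ring
          _ ≤ ((b : ℝ) ^ R0 * (b : ℝ) ^ m / 2) / M' := by gcongr
          _ = 1 / 2 / ((b : ℝ) ^ (V * l0) * (b : ℝ) ^ (e + 2 * l0 + 1)) := by
              rw [q6]
              field_simp
          _ ≤ 1 / 2 / (K : ℝ) ^ V := by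
              apply div_le_div_of_nonneg_left (by norm_num) (by positivity)
              calc (K : ℝ) ^ V ≤ (b : ℝ) ^ (V * l0) * 1 := by rw [mul_one]; exact q5
                _ ≤ _ := mul_le_mul_of_nonneg_left q7 (by positivity)
      refine (sum_le_sum q1).trans (le_of_eq ?_)
      rw [← sum_mul, hp1, one_mul]
    have g4 : 1 / (K' : ℝ) ^ (V + 1) ≤ 1 / 2 / (K : ℝ) ^ V := by
      have q1 : (K : ℝ) ≤ K' := by exact_mod_cast (by omega : K ≤ K')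
      have q2 : (2 : ℝ) ≤ K := by exact_mod_cast (by omega : 2 ≤ K)
      have hK'n : 0 < K' := by omega
      rw [div_div, div_le_div_iff₀ (by positivity) (by positivity), one_mul, one_mul]
      calc 2 * (K : ℝ) ^ V ≤ K * (K : ℝ) ^ V := mul_le_mul_of_nonneg_right q2 (by positivity)
        _ = (K : ℝ) ^ (V + 1) := by rw [pow_succ]; ring
        _ ≤ (K' : ℝ) ^ (V + 1) := pow_le_pow_left₀ (by positivity) q1 _
    calc _ ≤ 1 / (K' : ℝ) ^ (V + 1) + 1 / 2 / (K : ℝ) ^ V := add_le_add hch g3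
      _ ≤ 1 / 2 / (K : ℝ) ^ V + 1 / 2 / (K : ℝ) ^ V := add_le_add g4 le_rfl
      _ = 1 / (K : ℝ) ^ V := by ring
  calc 1 / (a : ℝ) * ‖∑ l ∈ range a, ∑ ω ∈ range (b ^ m), ((p ω : ℝ) : ℂ) *
        ee (((cc + κ * (ω : ℕ) : ℤ) : ℝ) * (((t : ℝ) / M + l) / a))‖ ≤ 1 / a * ∑ _l ∈ range a, 1 / (K : ℝ) ^ V := by
        apply mul_le_mul_of_nonneg_left _ (by positivity)
        exact (norm_sum_le _ _).trans (sum_le_sum hterm)
    _ = 1 / (K : ℝ) ^ V := by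
        rw [sum_const, card_range, nsmul_eq_mul]
        field_simp

end Pool.Agent.L7h50.AB
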