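import Pool.Agent.L7h50.AB.L3
import Pool.Agent.L7h50.AB.D4

set_option autoImplicit false

/-! The sums over a class modulo `a ^ 2` as sums with a shift. -/

namespace Pool.Agent.L7h50.AB
open Finset
open Pool.Agent.H373R2.T7

/-- the weight of the shifted sum -/
noncomputable def Gw (a b x t m : ℕ) : ℝ :=
  if a * b ∣ m ∧ 1 ≤ x + a * a * (m / (a * b) - 1) ∧ x + a * a * (m / (a * b) - 1) ≤ t then
    ArithmeticFunction.vonMangoldt (x + a * a * (m / (a * b) - 1)) else 0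

lemma Gw_abs (a b x t m : ℕ) (L : ℝ) (hL : 0 ≤ L) (ht : 1 ≤ t → Real.log t ≤ L) : |Gw a b x t m| ≤ L := by
  unfold Gw
  split_ifs with h
  · rw [abs_of_nonneg ArithmeticFunction.vonMangoldt_nonneg]
    refine ArithmeticFunction.vonMangoldt_le_log.trans (le_trans ?_ (ht (h.2.1.trans h.2.2)))
    apply Real.log_le_log
    · exact_mod_cast h.2.1
    · exact_mod_cast h.2.2
  · rw [abs_zero]
    exact hL

lemma GG_shift (a b : ℕ) (ha : 1 ≤ a) (hb : 1 ≤ b) (x : ℕ) (hx : x < a * a) (c : ℤ) (hd : (a : ℤ) ∣ b * x + c) (t N : ℕ)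
    (hN : a * b * (t / (a * a) + 1) ≤ N) (F : ℤ → ℝ) :
    GG F (wx a x) (ph a b c) t = ∑ m ∈ Icc 1 N, Gw a b x t m * F ((m : ℤ) + (b * x + c - a * a * b) / (a : ℤ)) := by
  classical
  have ha0 : (a : ℤ) ≠ 0 := by exact_mod_cast (by omega : a ≠ 0)
  have haa : 0 < a * a := Nat.mul_pos ha ha
  have hab : 0 < a * b := Nat.mul_pos ha hb
  have hY : (b * x + c - a * a * b) / (a : ℤ) = ph a b c x - a * b := by
    unfold ph
    have e : (b : ℤ) * x + c - a * a * b = (b * x + c) + (-(a * b)) * a := by ring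
    rw [e, Int.add_mul_ediv_right _ _ ha0]
    ring
  rw [hY]
  unfold GG
  obtain ⟨S1, hS1⟩ : ∃ S1, S1 = (Icc 1 t).filter (fun n => n % (a * a) = x) := ⟨_, rfl⟩
  obtain ⟨S2, hS2⟩ : ∃ S2, S2 = (Icc 1 N).filter (fun m => a * b ∣ m ∧ 1 ≤ x + a * a * (m / (a * b) - 1) ∧
    x + a * a * (m / (a * b) - 1) ≤ t) := ⟨_, rfl⟩
  have e1 : ∑ n ∈ Icc 1 t, wx a x n * F (ph a b c n) = ∑ n ∈ S1, ArithmeticFunction.vonMangoldt n * F (ph a b c n) := by
    rw [hS1, sum_filter]
    apply sum_congr rfl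
    intro n _
    unfold wx
    split_ifs
    · rfl
    · rw [zero_mul]
  have e2 : ∑ m ∈ Icc 1 N, Gw a b x t m * F ((m : ℤ) + (ph a b c x - a * b)) =
      ∑ m ∈ S2, ArithmeticFunction.vonMangoldt (x + a * a * (m / (a * b) - 1)) * F ((m : ℤ) + (ph a b c x - a * b)) := by
    rw [hS2, sum_filter]
    apply sum_congr rfl
    intro m _
    unfold Gw
    split_ifs
    · rfl
    · rw [zero_mul]
  rw [e1, e2]
  apply sum_bij (fun n _ => a * b * (n / (a * a) + 1))
  · intro n hn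
    rw [hS1, mem_filter, mem_Icc] at hn
    obtain ⟨⟨h1, h2⟩, h3⟩ := hn
    have h4 : a * b * (n / (a * a) + 1) / (a * b) - 1 = n / (a * a) := by
      rw [Nat.mul_div_cancel_left _ hab, Nat.add_sub_cancel]
    have h5 : x + a * a * (n / (a * a)) = n := by
      rw [← h3]
      exact Nat.mod_add_div n (a * a)
    rw [hS2, mem_filter, mem_Icc, h4, h5]
    refine ⟨⟨Nat.mul_pos hab (Nat.succ_pos _), ?_⟩, dvd_mul_right _ _, h1, h2⟩
    refine le_trans ?_ hN
    exact Nat.mul_le_mul_left _ (Nat.add_le_add_right (Nat.div_le_div_right h2) 1)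
  · intro n hn n' hn' h
    rw [hS1, mem_filter] at hn hn'
    have h1 := Nat.eq_of_mul_eq_mul_left hab h
    have h2 : n / (a * a) = n' / (a * a) := by omega
    rw [← Nat.mod_add_div n (a * a), ← Nat.mod_add_div n' (a * a), hn.2, hn'.2, h2]
  · intro m hm
    rw [hS2, mem_filter, mem_Icc] at hm
    obtain ⟨⟨h1, h2⟩, ⟨j, hj⟩, h4, h5⟩ := hm
    have hj1 : 1 ≤ j := by
      by_contra hcon
      have : j = 0 := by omega
      rw [this, mul_zero] at hj
      omega
    have h6 : m / (a * b) = j := by rw [hj, Nat.mul_div_cancel_left _ hab]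
    rw [h6] at h4 h5
    have h7 : (x + a * a * (j - 1)) / (a * a) = j - 1 := by
      rw [Nat.add_mul_div_left _ _ haa, Nat.div_eq_of_lt hx, zero_add]
    refine ⟨x + a * a * (j - 1), ?_, ?_⟩
    · rw [hS1, mem_filter, mem_Icc]
      refine ⟨⟨h4, h5⟩, ?_⟩
      rw [Nat.add_mul_mod_self_left, Nat.mod_eq_of_lt hx]
    · rw [h7, hj]
      congr 1
      omega
  · intro n hn
    rw [hS1, mem_filter] at hn
    have h4 : a * b * (n / (a * a) + 1) / (a * b) - 1 = n / (a * a) := by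
      rw [Nat.mul_div_cancel_left _ hab, Nat.add_sub_cancel]
    have h5 : x + a * a * (n / (a * a)) = n := by
      rw [← hn.2]
      exact Nat.mod_add_div n (a * a)
    rw [h4, h5, ph_class a b ha c x n hn.2 hd]
    congr 2
    push_cast
    ring

lemma N_bound (A a b t X : ℕ) (haA : a ≤ A) (hbA : b ≤ A) (ht : t ≤ 2 * X) (hX : 1 ≤ X) :
    a * b * (t / (a * a) + 1) ≤ 3 * (A * A) * X := by
  have h1 : t / (a * a) ≤ t := Nat.div_le_self _ _
  have h2 : a * b ≤ A * A := Nat.mul_le_mul haA hbA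
  calc a * b * (t / (a * a) + 1) ≤ (A * A) * (2 * X + 1) := Nat.mul_le_mul h2 (by omega)
    _ ≤ (A * A) * (3 * X) := Nat.mul_le_mul_left _ (by omega)
    _ = 3 * (A * A) * X := by ring

end Pool.Agent.L7h50.AB
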