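import Pool.Agent.L7h50.AB.L4

set_option autoImplicit false

/-! The prime solutions of `a p - b q = c` for all the `c` near almost all the values of a class of distributions. -/

namespace Pool.Agent.L7h50.AB
open Finset
open Pool.Agent.H373R2.T7
open Pool.Agent.W93.AU (Law)
open Pool.Agent.N625.DY (Cls ClsV)

/-- the scale -/
lemma scale (b C0 W k X : ℕ) (L : ℝ) (hb : 2 ≤ b) (hC0 : 2 ≤ C0) (hL : L = Real.log (X : ℝ)) (hL1 : 1 ≤ L)
    (hX0 : b ^ k ≤ X) (hX2 : (X : ℝ) ≤ (b : ℝ) ^ k * L ^ W) :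
    ∃ K e' : ℕ, K = k + e' ∧ C0 * X ≤ b ^ K ∧ b ^ K ≤ b * C0 * X ∧ L ≤ b * K ∧ e' ≤ (1 + C0 + 2 * W) * (Nat.log b K + 1) := by
  have hbr : (2 : ℝ) ≤ b := by exact_mod_cast hb
  have hb0 : (0 : ℝ) < b := by linarith
  have hbk : 0 < b ^ k := by positivity
  have hX : 0 < X := by omega
  have hXr : (0 : ℝ) < X := by exact_mod_cast hX
  have hL0 : 0 < L := by linarith
  obtain ⟨K, hKd⟩ : ∃ K, K = Nat.clog b (C0 * X) := ⟨_, rfl⟩
  have hCX : 1 < C0 * X := by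
    have := Nat.le_mul_of_pos_right C0 hX
    omega
  have hK1 : C0 * X ≤ b ^ K := by rw [hKd]; exact Nat.le_pow_clog (by omega) _
  have hXC : X ≤ C0 * X := Nat.le_mul_of_pos_left X (by omega)
  have hXlt : X < C0 * X := by
    have := Nat.mul_le_mul_right X hC0
    omega
  have hkK : k < K := by
    have : b ^ k < b ^ K := by omega
    exact (Nat.pow_lt_pow_iff_right (by omega)).1 this
  have hK2 : b ^ K ≤ b * C0 * X := by
    have h1 : b ^ (K - 1) < C0 * X := by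
      rw [hKd]
      exact Nat.pow_pred_clog_lt_self (by omega) hCX
    calc b ^ K = b ^ (K - 1 + 1) := by congr 1; omega
      _ = b * b ^ (K - 1) := by rw [pow_succ']
      _ ≤ b * (C0 * X) := Nat.mul_le_mul_left _ h1.le
      _ = b * C0 * X := by ring
  obtain ⟨e', he'⟩ : ∃ e', K = k + e' := ⟨K - k, by omega⟩
  have f2 : L ≤ b * K := by
    have g1 : L ≤ Real.log ((b ^ K : ℕ) : ℝ) := by
      rw [hL]
      apply Real.log_le_log hXr
      exact_mod_cast (by omega : X ≤ b ^ K)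
    have g2 : Real.log ((b ^ K : ℕ) : ℝ) = K * Real.log b := by
      push_cast; rw [Real.log_pow]
    have g3 : Real.log (b : ℝ) ≤ b := (Real.log_le_sub_one_of_pos hb0).trans (by linarith)
    rw [g2] at g1
    have g4 : (0 : ℝ) ≤ K := Nat.cast_nonneg _
    nlinarith
  refine ⟨K, e', he', hK1, hK2, f2, ?_⟩
  have f1 : (b : ℝ) ^ e' ≤ b * C0 * L ^ W := by
    have g1 : ((b ^ K : ℕ) : ℝ) ≤ b * C0 * X := by exact_mod_cast hK2
    rw [he'] at g1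
    push_cast at g1
    rw [pow_add] at g1
    have g2 : (b : ℝ) ^ k * (b : ℝ) ^ e' ≤ (b : ℝ) ^ k * (b * C0 * L ^ W) := by
      refine g1.trans ?_
      calc (b : ℝ) * C0 * X ≤ b * C0 * ((b : ℝ) ^ k * L ^ W) := mul_le_mul_of_nonneg_left hX2 (by positivity)
        _ = _ := by ring
    exact le_of_mul_le_mul_left g2 (by positivity)
  have f3 : (K : ℝ) ≤ (b : ℝ) ^ (Nat.log b K + 1) := by
    exact_mod_cast (Nat.lt_pow_succ_log_self (by omega) K).le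
  have f0 : (C0 : ℝ) ≤ (b : ℝ) ^ C0 := by
    exact_mod_cast (Nat.lt_pow_self (n := C0) (a := b) (by omega)).le
  have f4 : (b : ℝ) ^ e' ≤ (b : ℝ) ^ (1 + C0 + W + (Nat.log b K + 1) * W) := by
    calc (b : ℝ) ^ e' ≤ b * C0 * L ^ W := f1
      _ ≤ b * (b : ℝ) ^ C0 * (b * (b : ℝ) ^ (Nat.log b K + 1)) ^ W := by
          have : L ≤ b * (b : ℝ) ^ (Nat.log b K + 1) := f2.trans (mul_le_mul_of_nonneg_left f3 hb0.le)
          gcongr
      _ = _ := by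
          rw [mul_pow, ← pow_mul, pow_add, pow_add, pow_add]
          ring
  have f5 : e' ≤ 1 + C0 + W + (Nat.log b K + 1) * W := by
    by_contra hcon
    push Not at hcon
    have := pow_lt_pow_right₀ (by linarith : (1 : ℝ) < b) hcon
    linarith
  have f6 : 1 + C0 + W ≤ (1 + C0 + W) * (Nat.log b K + 1) := Nat.le_mul_of_pos_right _ (Nat.succ_pos _)
  calc e' ≤ 1 + C0 + W + (Nat.log b K + 1) * W := f5
    _ ≤ (1 + C0 + W) * (Nat.log b K + 1) + (Nat.log b K + 1) * W := by omega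
    _ = _ := by ring

/-- the final calculation -/
lemma fin_num (b A C0 U W K X R T : ℕ) (L : ℝ) (cd : ℝ) (hL1 : 1 ≤ L) (hX : 0 < X) (hR : (R : ℝ) ≤ L ^ W) (hT : (T : ℝ) ≤ 2 * L ^ (W + 7))
    (hcd : cd = (A * (A * (A * A * ((2 * R + 1) * (2 * T))))))
    (hbK : ((b ^ K : ℕ) : ℝ) ≤ b * C0 * X) (hLK : L ≤ b * K)
    (hK : (24 : ℝ) * (A : ℝ) ^ 4 * C0 * (b : ℝ) ^ (3 * W + 14) ≤ K) (hK1 : (1 : ℝ) ≤ K) :
    cd * (2 * L * (((b ^ K : ℕ) : ℝ) / (K : ℝ) ^ (3 * W + 13 + U + 1))) / ((X : ℝ) / L ^ (W + 5)) ≤ 1 / (K : ℝ) ^ U := by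
  have hL0 : 0 < L := by linarith
  have hX0 : (0 : ℝ) < X := by exact_mod_cast hX
  have hK0 : (0 : ℝ) < K := by linarith
  have h1 : (2 * (R : ℝ) + 1) ≤ 3 * L ^ W := by
    have : 1 ≤ L ^ W := one_le_pow₀ hL1
    linarith
  have h2 : cd ≤ 12 * (A : ℝ) ^ 4 * L ^ (2 * W + 7) := by
    rw [hcd]
    calc (A : ℝ) * (A * (A * A * ((2 * R + 1) * (2 * T)))) ≤ A * (A * (A * A * ((3 * L ^ W) * (2 * (2 * L ^ (W + 7)))))) := by gcongr
      _ = _ := by ring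
  have h3 : cd * (2 * L * (((b ^ K : ℕ) : ℝ) / (K : ℝ) ^ (3 * W + 13 + U + 1))) / ((X : ℝ) / L ^ (W + 5)) ≤
      (12 * (A : ℝ) ^ 4 * L ^ (2 * W + 7)) * (2 * L * ((b * C0 * X) / (K : ℝ) ^ (3 * W + 13 + U + 1))) / ((X : ℝ) / L ^ (W + 5)) := by
    gcongr
  refine h3.trans ?_
  have h4 : (12 * (A : ℝ) ^ 4 * L ^ (2 * W + 7)) * (2 * L * ((b * C0 * X) / (K : ℝ) ^ (3 * W + 13 + U + 1))) / ((X : ℝ) / L ^ (W + 5)) =
      (24 * (A : ℝ) ^ 4 * C0 * b * L ^ (3 * W + 13)) / (K : ℝ) ^ (3 * W + 13 + U + 1) := by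
    field_simp
    ring
  rw [h4, div_le_div_iff₀ (by positivity) (by positivity), one_mul]
  calc 24 * (A : ℝ) ^ 4 * C0 * b * L ^ (3 * W + 13) * (K : ℝ) ^ U ≤ 24 * (A : ℝ) ^ 4 * C0 * b * (b * K) ^ (3 * W + 13) * (K : ℝ) ^ U := by gcongr
    _ = (24 * (A : ℝ) ^ 4 * C0 * (b : ℝ) ^ (3 * W + 14)) * (K : ℝ) ^ (3 * W + 13) * (K : ℝ) ^ U := by rw [mul_pow]; ring
    _ ≤ K * (K : ℝ) ^ (3 * W + 13) * (K : ℝ) ^ U := by gcongr
    _ = (K : ℝ) ^ (3 * W + 13 + U + 1) := by ring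

end Pool.Agent.L7h50.AB
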