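import Pool.Agent.L7h50.AB.L5

set_option autoImplicit false

/-! The prime solutions of `a p - b q = c` for all the `c` near almost all the values of a class of distributions:
the probability of the exceptions. -/

namespace Pool.Agent.L7h50.AB
open Finset
open Pool.Agent.H373R2.T7
open Pool.Agent.W93.AU (Law)
open Pool.Agent.N625.DY (Cls ClsV)

/-- the deviation for one choice of the parameters -/
noncomputable def Dev (z s X : ℕ) (y : ℤ) (g : ℕ × ℕ × ℕ × ℤ × ℕ) : ℝ :=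
  if 1 ≤ g.1 ∧ 1 ≤ g.2.1 ∧ g.2.2.1 < g.1 * g.1 ∧ g.2.2.2.2 * s ≤ 2 * X ∧ (g.1 : ℤ) ∣ g.2.1 * g.2.2.1 + (y + g.2.2.2.1) then
    |GG lamI (wx g.1 g.2.2.1) (ph g.1 g.2.1 (y + g.2.2.2.1)) (g.2.2.2.2 * s) -
      GG (lamzI z) (wx g.1 g.2.2.1) (ph g.1 g.2.1 (y + g.2.2.2.1)) (g.2.2.2.2 * s)| else 0

lemma Dev_nonneg (z s X : ℕ) (y : ℤ) (g : ℕ × ℕ × ℕ × ℤ × ℕ) : 0 ≤ Dev z s X y g := by
  unfold Dev
  split_ifs
  · exact abs_nonneg _
  · exact le_rfl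

lemma abs_ediv_le' (y : ℤ) (a : ℕ) : |y / (a : ℤ)| ≤ |y| := Int.abs_ediv_le_abs y a

/-- the expectation of the deviation -/
lemma dev_mean {b : ℕ} {κ : ℤ} (F D U1 K : ℕ) (A B R C0 : ℕ) (k X z s : ℕ) (p : ℕ → ℝ) (c : ℤ) (L : ℝ)
    (hC0 : C0 = B + κ.natAbs + 1 + 2 * A ^ 3 + 3 * (A * A) + 2)
    (hone : ∀ (ι : Type) (Ω : Finset ι) (p : ι → ℝ) (Y : ι → ℤ), Law b F D (2 * U1 + 6) K Ω p Y →
      ∀ N : ℕ, (∀ ω ∈ Ω, -((b ^ K : ℕ) : ℤ) < Y ω ∧ (N : ℤ) + Y ω ≤ ((b ^ K : ℕ) : ℤ)) → N ≤ b ^ K →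
      ∀ Kc : ℝ, 0 < Kc → ∀ G : ℕ → ℝ, (∀ n ∈ Icc 1 N, |G n| ≤ Kc) →
      ∑ ω ∈ Ω, p ω * |∑ n ∈ Icc 1 N, G n * (lamI ((n : ℤ) + Y ω) - lamzI z ((n : ℤ) + Y ω))| ≤
        Kc * (((b ^ K : ℕ) : ℝ) / (K : ℝ) ^ U1))
    (hlaw : ∀ cc : ℤ, ∀ a : ℕ, 1 ≤ a → a ≤ A → Law b F D (2 * U1 + 6) K (range (b ^ k))
      (fun v => if (a : ℤ) ∣ cc + κ * (v : ℕ) then p v else 0) (fun v => (cc + κ * (v : ℕ)) / (a : ℤ)))
    (hL : 0 < L) (hlog : Real.log ((2 * X : ℕ) : ℝ) ≤ 2 * L) (hX : b ^ k ≤ X) (hX1 : 1 ≤ X) (hCX : C0 * X ≤ b ^ K)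
    (hc : |c| ≤ B * (b : ℤ) ^ k) (hRX : R ≤ X) (g : ℕ × ℕ × ℕ × ℤ × ℕ) (hgA : g.1 ≤ A) (hgB : g.2.1 ≤ A) (hgR : |g.2.2.2.1| ≤ R) :
    ∑ v ∈ range (b ^ k), p v * Dev z s X (c + κ * (v : ℕ)) g ≤ 2 * L * (((b ^ K : ℕ) : ℝ) / (K : ℝ) ^ U1) := by
  obtain ⟨α, β, x, δ, i⟩ := g
  simp only at hgA hgB hgR
  have hrhs : 0 ≤ 2 * L * (((b ^ K : ℕ) : ℝ) / (K : ℝ) ^ U1) := by positivity
  by_cases hcond : 1 ≤ α ∧ 1 ≤ β ∧ x < α * α ∧ i * s ≤ 2 * X
  swap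
  · refine le_trans (le_of_eq ?_) hrhs
    apply sum_eq_zero
    intro v _
    unfold Dev
    rw [if_neg (fun h => hcond ⟨h.1, h.2.1, h.2.2.1, h.2.2.2.1⟩), mul_zero]
  obtain ⟨hα, hβ, hx, hi⟩ := hcond
  obtain ⟨cc, hcc⟩ : ∃ cc : ℤ, cc = β * x + (c + δ) - α * α * β := ⟨_, rfl⟩
  obtain ⟨N, hN⟩ : ∃ N, N = 3 * (A * A) * X := ⟨_, rfl⟩
  have hcY : ∀ v : ℕ, cc + κ * (v : ℕ) = β * x + ((c + κ * (v : ℕ)) + δ) - α * α * β := fun v => by rw [hcc]; ring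
  have hdvd : ∀ v : ℕ, (α : ℤ) ∣ β * x + ((c + κ * (v : ℕ)) + δ) ↔ (α : ℤ) ∣ cc + κ * (v : ℕ) := by
    intro v
    rw [hcY, mul_assoc]
    exact (dvd_sub_left (dvd_mul_right _ _)).symm
  have hbnd : ∀ v ∈ range (b ^ k), -((b ^ K : ℕ) : ℤ) < (cc + κ * (v : ℕ)) / (α : ℤ) ∧
      (N : ℤ) + (cc + κ * (v : ℕ)) / (α : ℤ) ≤ ((b ^ K : ℕ) : ℤ) := by
    intro v hv
    rw [mem_range] at hv
    have h1 := abs_ediv_le' (cc + κ * (v : ℕ)) α
    have h2 : |cc + κ * (v : ℕ)| ≤ ((B + κ.natAbs + 1 + 2 * A ^ 3) * X : ℕ) := by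
      rw [hcY]
      have e1 : |(c : ℤ)| ≤ B * X := hc.trans (mul_le_mul_of_nonneg_left (by exact_mod_cast hX) (Int.natCast_nonneg _))
      have e2 : |κ * (v : ℤ)| ≤ κ.natAbs * X := by
        rw [abs_mul, Nat.abs_cast, Int.abs_eq_natAbs]
        apply mul_le_mul_of_nonneg_left _ (Int.natCast_nonneg _)
        exact_mod_cast (by omega : v ≤ X)
      have e3 : |(β : ℤ) * x| ≤ A ^ 3 * X := by
        rw [abs_of_nonneg (by positivity)]
        have : β * x ≤ A ^ 3 * X := by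
          calc β * x ≤ A * (A * A) := Nat.mul_le_mul hgB (hx.le.trans (Nat.mul_le_mul hgA hgA))
            _ = A ^ 3 := by ring
            _ ≤ A ^ 3 * X := Nat.le_mul_of_pos_right _ hX1
        exact_mod_cast this
      have e4 : |(α : ℤ) * α * β| ≤ A ^ 3 * X := by
        rw [abs_of_nonneg (by positivity)]
        have : α * α * β ≤ A ^ 3 * X := by
          calc α * α * β ≤ A * A * A := Nat.mul_le_mul (Nat.mul_le_mul hgA hgA) hgB
            _ = A ^ 3 := by ring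
            _ ≤ A ^ 3 * X := Nat.le_mul_of_pos_right _ hX1
        exact_mod_cast this
      have e5 : |δ| ≤ (X : ℤ) := hgR.trans (by exact_mod_cast hRX)
      have e6 := abs_sub ((β : ℤ) * x + ((c + κ * (v : ℕ)) + δ)) ((α : ℤ) * α * β)
      have e7 := abs_add_le ((β : ℤ) * x) ((c + κ * (v : ℕ)) + δ)
      have e8 := abs_add_le (c + κ * (v : ℤ)) δ
      have e9 := abs_add_le c (κ * (v : ℤ))
      push_cast
      have e10 : ((B : ℤ) + κ.natAbs + 1 + 2 * A ^ 3) * X = B * X + κ.natAbs * X + X + A ^ 3 * X + A ^ 3 * X := by ring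
      rw [Int.natCast_natAbs] at e2 e10
      rw [e10]
      linarith
    have h3 := abs_le.1 (h1.trans h2)
    have h4 : (B + κ.natAbs + 1 + 2 * A ^ 3) * X + 3 * (A * A) * X + 1 ≤ b ^ K := by
      refine le_trans ?_ hCX
      rw [hC0]
      nlinarith
    have h5 : (((B + κ.natAbs + 1 + 2 * A ^ 3) * X : ℕ) : ℤ) + ((3 * (A * A) * X : ℕ) : ℤ) + 1 ≤ ((b ^ K : ℕ) : ℤ) := by
      exact_mod_cast h4
    rw [hN]
    constructor
    · have : (0 : ℤ) ≤ ((3 * (A * A) * X : ℕ) : ℤ) := Int.natCast_nonneg _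
      linarith [h3.1]
    · linarith [h3.2]
  have hNK : N ≤ b ^ K := by
    refine le_trans ?_ hCX
    rw [hN, hC0]
    exact Nat.mul_le_mul_right _ (by omega)
  have key := hone ℕ (range (b ^ k)) (fun v => if (α : ℤ) ∣ cc + κ * (v : ℕ) then p v else 0) (fun v => (cc + κ * (v : ℕ)) / (α : ℤ))
    (hlaw cc α hα hgA) N hbnd hNK (2 * L) (by positivity) (Gw α β x (i * s)) (fun n _ =>
      Gw_abs α β x (i * s) n (2 * L) (by positivity) (fun h1 => by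
        refine le_trans ?_ hlog
        apply Real.log_le_log (by exact_mod_cast h1)
        exact_mod_cast hi))
  refine le_trans (le_of_eq ?_) key
  apply sum_congr rfl
  intro v _
  unfold Dev
  simp only
  by_cases hd : (α : ℤ) ∣ cc + κ * (v : ℕ)
  · have hd' := (hdvd v).2 hd
    rw [if_pos ⟨hα, hβ, hx, hi, hd'⟩, if_pos hd]
    congr 2
    rw [GG_shift α β hα hβ x hx _ hd' (i * s) N (by rw [hN]; exact N_bound A α β (i * s) X hgA hgB hi hX1) lamI,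
      GG_shift α β hα hβ x hx _ hd' (i * s) N (by rw [hN]; exact N_bound A α β (i * s) X hgA hgB hi hX1) (lamzI z),
      ← sum_sub_distrib]
    apply sum_congr rfl
    intro m _
    rw [← hcY]
    ring
  · have hd' : ¬ (α : ℤ) ∣ β * x + ((c + κ * (v : ℕ)) + δ) := fun h => hd ((hdvd v).1 h)
    rw [if_neg (fun h => hd' h.2.2.2.2), if_neg hd, mul_zero, zero_mul]

/-- Markov's inequality for several deviations -/
lemma markov_le {Ω ι : Type} (P : Finset Ω) (I : Finset ι) (p : Ω → ℝ) (hp : ∀ d, 0 ≤ p d) (F : Ω → ι → ℝ)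
    (hF : ∀ d i, 0 ≤ F d i) (bad : Ω → Prop) [DecidablePred bad] (t m : ℝ) (ht : 0 < t) (hbad : ∀ d ∈ P, bad d → ∃ i ∈ I, t ≤ F d i)
    (hm : ∀ i ∈ I, ∑ d ∈ P, p d * F d i ≤ m) : ∑ d ∈ P, (if bad d then p d else 0) ≤ I.card * m / t := by
  rw [le_div_iff₀ ht, sum_mul]
  have h1 : ∀ d ∈ P, (if bad d then p d else 0) * t ≤ ∑ i ∈ I, p d * F d i := by
    intro d hd
    have h2 : ∀ i ∈ I, 0 ≤ p d * F d i := fun i _ => mul_nonneg (hp d) (hF d i)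
    by_cases h3 : bad d
    · rw [if_pos h3]
      obtain ⟨i, hi, h4⟩ := hbad d hd h3
      exact (mul_le_mul_of_nonneg_left h4 (hp d)).trans (single_le_sum h2 hi)
    · rw [if_neg h3, zero_mul]
      exact sum_nonneg h2
  refine (sum_le_sum h1).trans ?_
  rw [sum_comm]
  refine (sum_le_sum hm).trans (le_of_eq ?_)
  rw [sum_const, nsmul_eq_mul]

set_option maxHeartbeats 1000000 in
open Classical in
/-- **The prime solutions of `a p - b q = c` for all the `c` near almost all the values of a class of distributions.** -/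
theorem cls_lin {b : ℕ} {κ : ℤ} {C : ℕ → (ℕ → ℝ) → Prop} (hC : ClsV b κ C) (A B U W : ℕ) (ε : ℝ) (hε : 0 < ε) :
    ∃ k₀ : ℕ, ∀ k : ℕ, k₀ ≤ k → ∀ X : ℕ, b ^ k ≤ X → (X : ℝ) ≤ (b : ℝ) ^ k * Real.log X ^ W → ∀ p, C k p →
    ∀ c : ℤ, |c| ≤ B * (b : ℤ) ^ k → ∀ Q : ℤ → Prop,
    (∀ y, ¬ Q y → ∃ (α β : ℕ) (δ : ℤ), α ≤ A ∧ β ≤ A ∧ ((|δ| : ℤ) : ℝ) ≤ Real.log X ^ W ∧ Ok α β (y + δ) ∧
      ¬ GoodE ε W X α β (y + δ)) →
    ∑ v ∈ range (b ^ k), (if Q (c + κ * (v : ℕ)) then 0 else p v) ≤ 1 / (k : ℝ) ^ U := by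
  have hb := hC.two
  have hbr : (2 : ℝ) ≤ b := by exact_mod_cast hb
  have hb0 : (0 : ℝ) < b := by linarith
  obtain ⟨C0, hC0⟩ : ∃ C0, C0 = B + κ.natAbs + 1 + 2 * A ^ 3 + 3 * (A * A) + 2 := ⟨_, rfl⟩
  obtain ⟨U1, hU1⟩ : ∃ U1, U1 = 3 * W + 13 + U + 1 := ⟨_, rfl⟩
  obtain ⟨F, hF, hlaw⟩ := cond_law hC A
  obtain ⟨D, KD, hD⟩ := hlaw (1 + C0 + 2 * W) (2 * U1 + 6)
  obtain ⟨B0, hone⟩ := one_law' b F hb hF U1 D
  obtain ⟨E1, hE1⟩ : ∃ E1, E1 = W + 13 + B0 := ⟨_, rfl⟩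
  obtain ⟨K0, h0⟩ := hone (E1 + 1)
  obtain ⟨N0, hdet⟩ := det_goodE ε hε A (B + κ.natAbs + 1) W E1 (by omega)
  obtain ⟨n1, hn1⟩ := exists_nat_ge (2 * ((2 : ℝ) ^ (B0 + 1) + Real.log (b * C0) + 4))
  obtain ⟨n2, hn2⟩ := ev_log' (W + 1) 1
  obtain ⟨n3, hn3⟩ := exists_nat_ge ((24 : ℝ) * ((A + 1 : ℕ) : ℝ) ^ 4 * C0 * (b : ℝ) ^ (3 * W + 14))
  refine ⟨K0 + KD + N0 + n1 + n2 + n3 + 4, fun k hk X hX0 hX2 p hp c hc Q hQ => ?_⟩
  have hkb : k < b ^ k := Nat.lt_pow_self (by omega)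
  have hX1 : 1 ≤ X := by omega
  have hXr : (0 : ℝ) < X := by exact_mod_cast hX1
  have hlb : 1 / 2 ≤ Real.log b := by
    have q1 : Real.log 2 ≤ Real.log b := Real.log_le_log (by norm_num) hbr
    linarith [Real.log_two_gt_d9]
  obtain ⟨L, hL⟩ : ∃ L, L = Real.log (X : ℝ) := ⟨_, rfl⟩
  have hLk : (2 : ℝ) ^ (B0 + 1) + Real.log (b * C0) + 4 ≤ L := by
    have q1 : Real.log ((b ^ k : ℕ) : ℝ) ≤ L := by
      rw [hL]
      apply Real.log_le_log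
      · exact_mod_cast (by positivity : 0 < b ^ k)
      · exact_mod_cast hX0
    have q2 : Real.log ((b ^ k : ℕ) : ℝ) = k * Real.log b := by
      push_cast; rw [Real.log_pow]
    have q3 : (n1 : ℝ) ≤ k := by exact_mod_cast (by omega : n1 ≤ k)
    rw [q2] at q1
    have q4 : (0 : ℝ) ≤ k := Nat.cast_nonneg _
    nlinarith
  have hbC : 0 ≤ Real.log (b * C0 : ℝ) := by
    apply Real.log_nonneg
    have : (1 : ℝ) ≤ C0 := by exact_mod_cast (by omega : 1 ≤ C0)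
    nlinarith
  have h2B : (0 : ℝ) < 2 ^ (B0 + 1) := by positivity
  have hL4 : 4 ≤ L := by linarith
  have hL1 : 1 ≤ L := by linarith
  have hL0 : 0 < L := by linarith
  have hsq := hn2 X (by omega)
  rw [one_mul, ← hL] at hsq
  have hss : √(X : ℝ) * √(X : ℝ) = X := Real.mul_self_sqrt hXr.le
  rw [← hL] at hX2 hQ
  obtain ⟨K, e', hKe, hK1, hK2, hLK, hee⟩ := scale b C0 W k X L hb (by omega) hL hL1 hX0 hX2
  have hXK : X ≤ b ^ K := (Nat.le_mul_of_pos_left X (by omega)).trans hK1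
  have hbK : ((b ^ K : ℕ) : ℝ) ≤ b * C0 * X := by exact_mod_cast hK2
  obtain ⟨LK, hLKd⟩ : ∃ LK, LK = Real.log ((b ^ K : ℕ) : ℝ) := ⟨_, rfl⟩
  have hLK1 : L ≤ LK := by
    rw [hL, hLKd]
    exact Real.log_le_log hXr (by exact_mod_cast hXK)
  have hLK2 : LK ≤ 2 * L := by
    have q1 : LK ≤ Real.log (b * C0 * X : ℝ) := by
      rw [hLKd]
      exact Real.log_le_log (by exact_mod_cast (by positivity : 0 < b ^ K)) hbK
    have q2 : (0 : ℝ) < C0 := by exact_mod_cast (by omega : 0 < C0)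
    rw [Real.log_mul (by positivity) hXr.ne', ← hL] at q1
    linarith
  -- the level of the sieve
  obtain ⟨z, hz⟩ : ∃ z : ℕ, z = ⌈L ^ E1⌉₊ := ⟨_, rfl⟩
  have hz1 : L ^ E1 ≤ z := by rw [hz]; exact Nat.le_ceil _
  have hz2 : (z : ℝ) ≤ L ^ (E1 + 1) := by
    have q1 : (z : ℝ) < L ^ E1 + 1 := by rw [hz]; exact Nat.ceil_lt_add_one (by positivity)
    have q2 : 1 ≤ L ^ E1 := one_le_pow₀ hL1
    rw [pow_succ]
    nlinarith
  have hz3 : LK ^ B0 ≤ z := by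
    refine le_trans ?_ hz1
    calc LK ^ B0 ≤ (2 * L) ^ B0 := pow_le_pow_left₀ (by linarith) hLK2 _
      _ = 2 ^ B0 * L ^ B0 := mul_pow _ _ _
      _ ≤ L * L ^ B0 := by
          apply mul_le_mul_of_nonneg_right _ (by positivity)
          have : (2 : ℝ) ^ B0 ≤ 2 ^ (B0 + 1) := pow_le_pow_right₀ (by norm_num) (by omega)
          linarith
      _ = L ^ (B0 + 1) := by ring
      _ ≤ L ^ E1 := pow_le_pow_right₀ hL1 (by omega)
  have hz4 : (z : ℝ) ≤ LK ^ (E1 + 1) := hz2.trans (pow_le_pow_left₀ hL0.le hLK1 _)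
  -- the grid
  obtain ⟨T, hT⟩ : ∃ T : ℕ, T = ⌈L ^ (W + 7)⌉₊ := ⟨_, rfl⟩
  have hT1 : L ^ (W + 7) ≤ T := by rw [hT]; exact Nat.le_ceil _
  have hT2 : (T : ℝ) ≤ 2 * L ^ (W + 7) := by
    have q1 : (T : ℝ) < L ^ (W + 7) + 1 := by rw [hT]; exact Nat.ceil_lt_add_one (by positivity)
    have q2 : 1 ≤ L ^ (W + 7) := one_le_pow₀ hL1
    linarith
  have hTn : 1 ≤ T := by
    have : (1 : ℝ) ≤ T := (one_le_pow₀ hL1).trans hT1
    exact_mod_cast this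
  obtain ⟨s, hs⟩ : ∃ s, s = X / T + 1 := ⟨_, rfl⟩
  obtain ⟨R, hR⟩ : ∃ R : ℕ, R = ⌊L ^ W⌋₊ := ⟨_, rfl⟩
  have hR1 : (R : ℝ) ≤ L ^ W := by rw [hR]; exact Nat.floor_le (by positivity)
  have hRX : R ≤ X := by
    have q1 : (R : ℝ) ≤ X := by
      refine hR1.trans ?_
      calc L ^ W ≤ L ^ (W + 1) := pow_le_pow_right₀ hL1 (by omega)
        _ ≤ √X := hsq
        _ ≤ √X * √X := by
            have : 1 ≤ √(X : ℝ) := (one_le_pow₀ hL1).trans hsq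
            nlinarith
        _ = X := hss
    exact_mod_cast q1
  have hlog : Real.log ((2 * X : ℕ) : ℝ) ≤ 2 * L := by
    push_cast
    rw [Real.log_mul (by norm_num) hXr.ne', ← hL]
    linarith [Real.log_two_lt_d9]
  have hthr : (0 : ℝ) < (X : ℝ) / L ^ (W + 5) := by positivity
  obtain ⟨I, hI⟩ : ∃ I : Finset (ℕ × ℕ × ℕ × ℤ × ℕ), I = range (A + 1) ×ˢ (range (A + 1) ×ˢ (range (A * A) ×ˢ (Icc (-(R : ℤ)) R ×ˢ range (2 * T)))) := ⟨_, rfl⟩
  have hbad : ∀ v ∈ range (b ^ k), ¬ Q (c + κ * (v : ℕ)) → ∃ g ∈ I, (X : ℝ) / L ^ (W + 5) ≤ Dev z s X (c + κ * (v : ℕ)) g := by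
    intro v hv hnQ
    rw [mem_range] at hv
    obtain ⟨α, β, δ, hα, hβ, hδ, hOk, hnG⟩ := hQ _ hnQ
    obtain ⟨hα1, hβ1, _⟩ := id hOk
    have hδR : |δ| ≤ (R : ℤ) := by
      have q1 : ((δ.natAbs : ℕ) : ℝ) ≤ L ^ W := by
        rw [Nat.cast_natAbs]
        exact hδ
      have q2 : δ.natAbs ≤ R := by rw [hR]; exact Nat.le_floor q1
      rw [Int.abs_eq_natAbs]
      exact_mod_cast q2
    by_contra hcon
    push Not at hcon
    apply hnG
    have hyb : |c + κ * (v : ℕ) + δ| ≤ ((B + κ.natAbs + 1 : ℕ) : ℤ) * X := by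
      have e1 : |(c : ℤ)| ≤ B * X := hc.trans (mul_le_mul_of_nonneg_left (by exact_mod_cast hX0) (Int.natCast_nonneg _))
      have e2 : |κ * (v : ℤ)| ≤ κ.natAbs * X := by
        rw [abs_mul, Nat.abs_cast, Int.abs_eq_natAbs]
        apply mul_le_mul_of_nonneg_left _ (Int.natCast_nonneg _)
        exact_mod_cast (by omega : v ≤ X)
      have e5 : |δ| ≤ (X : ℤ) := hδR.trans (by exact_mod_cast hRX)
      have e8 := abs_add_le (c + κ * (v : ℤ)) δ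
      have e9 := abs_add_le c (κ * (v : ℤ))
      have e10 : ((B + κ.natAbs + 1 : ℕ) : ℤ) * X = B * X + κ.natAbs * X + X := by push_cast; ring
      rw [e10]
      linarith
    apply hdet X (by omega) z (by rw [← hL]; exact hz1) (by rw [← hL]; exact hz2) T (by rw [← hL]; exact hT1) α β hα hβ _ hOk hyb
    intro x hx hd i hi
    rw [← hL, ← hs]
    rw [← hs] at hi
    have hiT : i < 2 * T := by
      by_contra hcon2
      push Not at hcon2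
      have q1 : X < T * s := by
        rw [hs]
        exact Nat.lt_mul_div_succ X hTn
      have q2 : 2 * T * s ≤ i * s := Nat.mul_le_mul_right _ hcon2
      have q3 : 2 * T * s = 2 * (T * s) := by ring
      omega
    have hgI : (α, β, x, δ, i) ∈ I := by
      rw [hI, mem_product, mem_product, mem_product, mem_product, mem_range, mem_range, mem_range, mem_Icc, mem_range]
      refine ⟨Nat.lt_succ_of_le hα, Nat.lt_succ_of_le hβ, ?_, ⟨?_, ?_⟩, hiT⟩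
      · exact lt_of_lt_of_le hx (Nat.mul_le_mul hα hα)
      · exact (abs_le.1 hδR).1
      · exact (abs_le.1 hδR).2
    have q1 := hcon _ hgI
    unfold Dev at q1
    rw [if_pos ⟨hα1, hβ1, hx, hi, hd⟩] at q1
    exact q1.le
  have hm := markov_le (range (b ^ k)) I p (hC.nonneg k p hp) (fun v g => Dev z s X (c + κ * (v : ℕ)) g) (fun v g => Dev_nonneg _ _ _ _ _)
    (fun v => ¬ Q (c + κ * (v : ℕ))) ((X : ℝ) / L ^ (W + 5)) (2 * L * (((b ^ K : ℕ) : ℝ) / (K : ℝ) ^ U1)) hthr hbad (by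
      intro g hg
      rw [hI, mem_product, mem_product, mem_product, mem_product, mem_range, mem_range, mem_range, mem_Icc, mem_range] at hg
      obtain ⟨g1, g2, g3, ⟨g4, g5⟩, g6⟩ := hg
      exact dev_mean F D U1 K A B R C0 k X z s p c L hC0 (h0 K (by omega) z (by rw [← hLKd]; exact hz3) (by rw [← hLKd]; exact hz4))
        (fun cc a ha haA => hD K (by omega) k e' hKe hee p hp cc a ha haA) hL0 hlog hX0 hX1 hK1 hc hRX g (by omega) (by omega)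
        (abs_le.2 ⟨g4, g5⟩))
  have hcard : (I.card : ℝ) ≤ ((A + 1 : ℕ) * ((A + 1 : ℕ) * ((A + 1 : ℕ) * (A + 1 : ℕ) * ((2 * R + 1) * (2 * T))))) := by
    have q1 : I.card = (A + 1) * ((A + 1) * ((A * A) * ((2 * R + 1) * (2 * T)))) := by
      rw [hI, card_product, card_product, card_product, card_product, card_range, card_range, card_range, Int.card_Icc]
      have : ((R : ℤ) + 1 - -(R : ℤ)).toNat = 2 * R + 1 := by omega
      rw [this]
    have q2 : I.card ≤ (A + 1) * ((A + 1) * (((A + 1) * (A + 1)) * ((2 * R + 1) * (2 * T)))) := by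
      rw [q1]
      apply Nat.mul_le_mul_left
      apply Nat.mul_le_mul_left
      apply Nat.mul_le_mul_right
      exact Nat.mul_le_mul (by omega) (by omega)
    exact_mod_cast q2
  have hKr : (1 : ℝ) ≤ K := by exact_mod_cast (by omega : 1 ≤ K)
  have hsum : ∑ v ∈ range (b ^ k), (if Q (c + κ * (v : ℕ)) then 0 else p v) =
      ∑ v ∈ range (b ^ k), (if ¬ Q (c + κ * (v : ℕ)) then p v else 0) := by
    apply sum_congr rfl
    intro v _
    by_cases hv : Q (c + κ * (v : ℕ))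
    · rw [if_pos hv, if_neg (not_not.2 hv)]
    · rw [if_neg hv, if_pos hv]
  rw [hsum]
  refine hm.trans ?_
  have hbd := fin_num b (A + 1) C0 U W K X R T L _ hL1 hX1 hR1 hT2 rfl hbK hLK (hn3.trans (by exact_mod_cast (by omega : n3 ≤ K))) hKr
  rw [← hU1] at hbd
  refine le_trans (le_trans ?_ hbd) ?_
  · apply div_le_div_of_nonneg_right _ hthr.le
    apply mul_le_mul_of_nonneg_right hcard (by positivity)
  · have hm1 : (0 : ℝ) < (k : ℝ) := by exact_mod_cast (by omega : 0 < k)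
    apply one_div_le_one_div_of_le (by positivity)
    apply pow_le_pow_left₀ hm1.le
    exact_mod_cast (by omega : k ≤ K)

end Pool.Agent.L7h50.AB
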