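import Pool.Agent.L7h50.AB.L6

set_option autoImplicit false

/-! The prime solutions of `a p - b q = c` in all the windows: the form used in the results. -/

namespace Pool.Agent.L7h50.AB
open Finset
open Pool.Agent.H560R3.GB (C₂ sing)
open Pool.Agent.N625.DY (ClsV)

/-- all the windows of length at least `N / log ^ W N` below `N log ^ W N` are as they should be -/
def WinE (ε : ℝ) (W N a b : ℕ) (c : ℤ) : Prop :=
  ∀ M M' : ℕ, (M : ℝ) + N / Real.log N ^ W ≤ M' → (M' : ℝ) ≤ N * Real.log N ^ W → 0 ≤ (b : ℤ) * M + c →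
    |(cntE a b c M M' : ℝ) - dE a b c * (((M' : ℝ) - M) / Real.log N ^ 2)| ≤
      ε * (dE a b c * (((M' : ℝ) - M) / Real.log N ^ 2))

lemma ev_log_le (δ : ℝ) (hδ : 0 < δ) : ∃ k₀ : ℕ, ∀ k : ℕ, k₀ ≤ k → Real.log k ≤ δ * k := by
  have h := (Real.isLittleO_log_id_atTop.bound hδ)
  have h2 := tendsto_natCast_atTop_atTop (R := ℝ) |>.eventually h
  obtain ⟨k₀, hk⟩ := Filter.eventually_atTop.mp h2
  refine ⟨k₀ + 1, fun k hk' => ?_⟩
  have h3 := hk k (by omega)
  have hk1 : (1 : ℝ) ≤ k := by exact_mod_cast (by omega : 1 ≤ k)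
  rw [id, Real.norm_of_nonneg (Real.log_nonneg hk1), Real.norm_of_nonneg (by linarith)] at h3
  exact h3

/-- the choice of the scale -/
lemma scale_win (b : ℕ) (hb : 2 ≤ b) (W e : ℕ) (ε : ℝ) (hε : 0 < ε) (hε1 : ε ≤ 1) : ∃ k₁ : ℕ, ∀ k : ℕ, k₁ ≤ k → ∀ N : ℕ,
    N ≤ b ^ k → (b : ℝ) ^ k ≤ (k : ℝ) ^ e * N → ∃ X : ℕ, b ^ k ≤ X ∧ (X : ℝ) ≤ (b : ℝ) ^ k * Real.log X ^ (e + 2 * W + 2) ∧
      (N : ℝ) * Real.log N ^ W ≤ X ∧ (X : ℝ) / Real.log X ^ (e + 2 * W + 2) ≤ N / Real.log N ^ W ∧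
      Real.log N ^ W ≤ Real.log X ^ (e + 2 * W + 2) ∧ (1 - ε) * Real.log X ^ 2 ≤ Real.log N ^ 2 ∧ 1 ≤ Real.log N ∧
      Real.log N ≤ Real.log X := by
  obtain ⟨n1, hn1⟩ := exists_nat_ge (Real.log b ^ W)
  obtain ⟨n2, hn2⟩ := exists_nat_ge (2 * (2 : ℝ) ^ (e + W + 1))
  obtain ⟨n3, hn3⟩ := ev_log_le (ε / (4 * ((W : ℝ) + 1 + e))) (by positivity)
  refine ⟨n1 + n2 + n3 + 8, fun k hk N hN1 hN2 => ?_⟩
  have hk8 : (8 : ℝ) ≤ k := by exact_mod_cast (by omega : 8 ≤ k)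
  have hk0 : (0 : ℝ) < k := by linarith
  have hk1 : 1 ≤ k := by omega
  have hbr : (2 : ℝ) ≤ b := by exact_mod_cast hb
  have hb0 : (0 : ℝ) < b := by linarith
  have hlb : 1 / 2 ≤ Real.log b := by
    have q1 : Real.log 2 ≤ Real.log b := Real.log_le_log (by norm_num) hbr
    linarith [Real.log_two_gt_d9]
  have hbk : (0 : ℝ) < (b : ℝ) ^ k := by positivity
  have hN0 : (0 : ℝ) < N := by
    by_contra hcon
    have : (N : ℝ) = 0 := le_antisymm (not_lt.1 hcon) (Nat.cast_nonneg _)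
    rw [this, mul_zero] at hN2
    linarith
  have hNb : (N : ℝ) ≤ (b : ℝ) ^ k := by exact_mod_cast hN1
  obtain ⟨X, hX⟩ : ∃ X, X = b ^ k * k ^ (W + 1) := ⟨_, rfl⟩
  have hXr : (X : ℝ) = (b : ℝ) ^ k * (k : ℝ) ^ (W + 1) := by rw [hX]; push_cast; ring
  have hX0 : (0 : ℝ) < X := by rw [hXr]; positivity
  have hbX : b ^ k ≤ X := by rw [hX]; exact Nat.le_mul_of_pos_right _ (by positivity)
  have hbXr : (b : ℝ) ^ k ≤ X := by exact_mod_cast hbX
  have hlogb : Real.log ((b : ℝ) ^ k) = k * Real.log b := Real.log_pow _ _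
  have hlX : Real.log X = k * Real.log b + (W + 1) * Real.log k := by
    rw [hXr, Real.log_mul (by positivity) (by positivity), Real.log_pow, Real.log_pow]
    push_cast; ring
  have hlk : 0 ≤ Real.log k := Real.log_nonneg (by linarith)
  have hkX : (k : ℝ) ≤ 2 * Real.log X := by
    rw [hlX]
    have : (k : ℝ) * (1 / 2) ≤ k * Real.log b := mul_le_mul_of_nonneg_left hlb hk0.le
    have h2 : 0 ≤ ((W : ℝ) + 1) * Real.log k := by positivity
    linarith
  have hn2k : 2 * (2 : ℝ) ^ (e + W + 1) ≤ k := hn2.trans (by exact_mod_cast (by omega : n2 ≤ k))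
  have hXbig : (2 : ℝ) ^ (e + W + 1) ≤ Real.log X := by linarith
  have hlX0 : 0 < Real.log X := by linarith
  have hlX1 : 1 ≤ Real.log X := by linarith
  -- the size of `log N`
  have hlN : k * Real.log b - e * Real.log k ≤ Real.log N := by
    have h1 : Real.log ((b : ℝ) ^ k) ≤ Real.log ((k : ℝ) ^ e * N) := Real.log_le_log hbk hN2
    rw [hlogb, Real.log_mul (by positivity) hN0.ne', Real.log_pow] at h1
    linarith
  have hlogk : ((W : ℝ) + 1 + e) * Real.log k ≤ ε / 4 * k := by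
    have h1 := hn3 k (by omega)
    have h2 : (0 : ℝ) < (W : ℝ) + 1 + e := by positivity
    calc ((W : ℝ) + 1 + e) * Real.log k ≤ ((W : ℝ) + 1 + e) * (ε / (4 * ((W : ℝ) + 1 + e)) * k) :=
          mul_le_mul_of_nonneg_left h1 h2.le
      _ = ε / 4 * k := by field_simp
  have hdiff : Real.log X - Real.log N ≤ ε / 2 * Real.log X := by
    have h1 : Real.log X - Real.log N ≤ ((W : ℝ) + 1 + e) * Real.log k := by
      rw [hlX]
      have : ((W : ℝ) + 1 + e) * Real.log k = (W + 1) * Real.log k + e * Real.log k := by ring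
      linarith
    have h2 : ε / 4 * k ≤ ε / 4 * (2 * Real.log X) := mul_le_mul_of_nonneg_left hkX (by positivity)
    linarith
  have hNX : Real.log N ≤ Real.log X := Real.log_le_log hN0 (hNb.trans hbXr)
  have hN1' : 1 ≤ Real.log N := by
    have h1 : (1 - ε / 2) * Real.log X ≤ Real.log N := by linarith
    have h2 : (1 / 2 : ℝ) * Real.log X ≤ (1 - ε / 2) * Real.log X := by
      apply mul_le_mul_of_nonneg_right _ hlX0.le
      linarith
    have h3 : (4 : ℝ) ≤ Real.log X := by linarith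
    linarith
  have hkpow : (k : ℝ) ^ (W + 1) ≤ Real.log X ^ (e + 2 * W + 2) := by
    calc (k : ℝ) ^ (W + 1) ≤ (2 * Real.log X) ^ (W + 1) := pow_le_pow_left₀ hk0.le hkX _
      _ = 2 ^ (W + 1) * Real.log X ^ (W + 1) := by rw [mul_pow]
      _ ≤ Real.log X * Real.log X ^ (W + 1) := by
          apply mul_le_mul_of_nonneg_right _ (by positivity)
          refine le_trans ?_ hXbig
          exact pow_le_pow_right₀ (by norm_num) (by omega)
      _ = Real.log X ^ (W + 2) := by rw [← pow_succ']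
      _ ≤ _ := pow_le_pow_right₀ hlX1 (by omega)
  refine ⟨X, hbX, ?_, ?_, ?_, ?_, ?_, hN1', hNX⟩
  · rw [hXr] at *
    exact mul_le_mul_of_nonneg_left hkpow hbk.le
  · -- N log^W N ≤ X
    have h1 : Real.log N ^ W ≤ (k : ℝ) ^ (W + 1) := by
      calc Real.log N ^ W ≤ (k * Real.log b) ^ W := by
            apply pow_le_pow_left₀ (by linarith)
            rw [← hlogb]
            exact Real.log_le_log hN0 hNb
        _ = Real.log b ^ W * k ^ W := by rw [mul_pow]; ring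
        _ ≤ k * k ^ W := by
            apply mul_le_mul_of_nonneg_right _ (by positivity)
            exact hn1.trans (by exact_mod_cast (by omega : n1 ≤ k))
        _ = (k : ℝ) ^ (W + 1) := by rw [← pow_succ']
    rw [hXr]
    exact mul_le_mul hNb h1 (pow_nonneg (by linarith) _) hbk.le
  · rw [div_le_div_iff₀ (pow_pos hlX0 _) (pow_pos (by linarith) _)]
    calc (X : ℝ) * Real.log N ^ W = (b : ℝ) ^ k * (k : ℝ) ^ (W + 1) * Real.log N ^ W := by rw [hXr]
      _ ≤ ((k : ℝ) ^ e * N) * (k : ℝ) ^ (W + 1) * Real.log X ^ W := by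
          have hlN0 : 0 ≤ Real.log N := by linarith
          gcongr
      _ = N * ((k : ℝ) ^ (e + W + 1) * Real.log X ^ W) := by
          rw [show e + W + 1 = e + (W + 1) by ring, pow_add (k : ℝ) e (W + 1)]; ring
      _ ≤ N * ((2 * Real.log X) ^ (e + W + 1) * Real.log X ^ W) := by gcongr
      _ = N * (2 ^ (e + W + 1) * (Real.log X ^ (e + W + 1) * Real.log X ^ W)) := by rw [mul_pow]; ring
      _ ≤ N * (Real.log X * (Real.log X ^ (e + W + 1) * Real.log X ^ W)) := by gcongr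
      _ = N * Real.log X ^ (e + 2 * W + 2) := by
          ring
  · calc Real.log N ^ W ≤ Real.log X ^ W := pow_le_pow_left₀ (by linarith) hNX _
      _ ≤ _ := pow_le_pow_right₀ hlX1 (by omega)
  · have h1 : (1 - ε / 2) * Real.log X ≤ Real.log N := by linarith
    have h2 : 0 ≤ (1 - ε / 2) * Real.log X := mul_nonneg (by linarith) hlX0.le
    calc (1 - ε) * Real.log X ^ 2 ≤ ((1 - ε / 2) * Real.log X) ^ 2 := by
          rw [mul_pow]
          apply mul_le_mul_of_nonneg_right _ (by positivity)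
          nlinarith
      _ ≤ Real.log N ^ 2 := pow_le_pow_left₀ h2 h1 2

lemma dE_nonneg (a b : ℕ) (c : ℤ) : 0 ≤ dE a b c := by
  unfold dE sing
  have hC : 0 ≤ C₂ := by
    unfold C₂
    apply Real.iInf_nonneg
    intro z
    apply prod_nonneg
    intro p hp
    rw [mem_filter, mem_Icc] at hp
    have hp3 : (3 : ℝ) ≤ p := by exact_mod_cast hp.1.1
    have h1 : (1 : ℝ) ≤ ((p : ℝ) - 1) ^ 2 := by nlinarith
    have h2 : 1 / ((p : ℝ) - 1) ^ 2 ≤ 1 := by
      rw [div_le_one (by positivity)]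
      exact h1
    linarith
  apply div_nonneg _ (Nat.cast_nonneg _)
  apply mul_nonneg (by positivity)
  apply prod_nonneg
  intro p hp
  rw [mem_filter] at hp
  have hp3 : (3 : ℝ) ≤ p := by exact_mod_cast hp.2
  apply div_nonneg <;> linarith

/-- from one normalisation to the other -/
lemma win_of_good (ε : ℝ) (hε : 0 < ε) (W V X N a b : ℕ) (c : ℤ) (hb : 1 ≤ b)
    (h1 : (N : ℝ) * Real.log N ^ W ≤ X) (h2 : (X : ℝ) / Real.log X ^ V ≤ N / Real.log N ^ W)
    (h3 : (1 - ε / 2) * Real.log X ^ 2 ≤ Real.log N ^ 2) (h4 : 1 ≤ Real.log N) (h5 : Real.log N ≤ Real.log X)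
    (hG : GoodE (ε / 2) V X a b c) : WinE ε W N a b c := by
  intro M M' hM hM' hc
  have hb' : (1 : ℤ) ≤ b := by exact_mod_cast hb
  have h6 := hG M M' (by
    have : (M' : ℝ) ≤ X := hM'.trans h1
    exact_mod_cast this) (by linarith) (fun n hn => by
      rw [mem_Ioc] at hn
      have hn1 : (M : ℤ) + 1 ≤ n := by exact_mod_cast hn.1
      nlinarith)
  have hlX : 0 < Real.log X := by linarith
  have hlN : 0 < Real.log N := by linarith
  have hl : 0 ≤ (M' : ℝ) - M := by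
    have : 0 ≤ (N : ℝ) / Real.log N ^ W := by positivity
    linarith
  obtain ⟨T, hT⟩ : ∃ T, T = dE a b c * ((M' : ℝ) - M) := ⟨_, rfl⟩
  have hT0 : 0 ≤ T := by rw [hT]; exact mul_nonneg (dE_nonneg a b c) hl
  have e1 : dE a b c * (((M' : ℝ) - M) / Real.log X ^ 2) = T / Real.log X ^ 2 := by rw [hT]; ring
  have e2 : dE a b c * (((M' : ℝ) - M) / Real.log N ^ 2) = T / Real.log N ^ 2 := by rw [hT]; ring
  rw [e1] at h6
  rw [e2]
  have h7 : T / Real.log X ^ 2 ≤ T / Real.log N ^ 2 :=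
    div_le_div_of_nonneg_left hT0 (by positivity) (pow_le_pow_left₀ hlN.le h5 2)
  have h8 : (1 - ε / 2) * (T / Real.log N ^ 2) ≤ T / Real.log X ^ 2 := by
    rw [← mul_div_assoc, div_le_div_iff₀ (by positivity) (by positivity)]
    nlinarith [mul_le_mul_of_nonneg_left h3 hT0]
  have h9 : 0 ≤ T / Real.log N ^ 2 := by positivity
  rw [abs_le] at h6 ⊢
  constructor
  · nlinarith [h6.1]
  · nlinarith [h6.2]

/-- **All the windows, for all the `c` near almost all the values of a class of distributions.** -/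
theorem cls_win {b : ℕ} {κ : ℤ} {C : ℕ → (ℕ → ℝ) → Prop} (hC : ClsV b κ C) (A B U W e : ℕ) (ε : ℝ) (hε : 0 < ε) :
    ∃ k₀ : ℕ, ∀ k : ℕ, k₀ ≤ k → ∀ N : ℕ, N ≤ b ^ k → (b : ℝ) ^ k ≤ (k : ℝ) ^ e * N → ∀ p, C k p →
    ∀ c : ℤ, |c| ≤ B * (b : ℤ) ^ k → ∀ Q : ℤ → Prop, ∀ _ : DecidablePred Q,
    (∀ y, ¬ Q y → ∃ (α β : ℕ) (γ : ℤ), α ≤ A ∧ β ≤ A ∧ ((|γ - y| : ℤ) : ℝ) ≤ Real.log N ^ W ∧ Ok α β γ ∧
      ¬ WinE ε W N α β γ) →
    ∑ v ∈ range (b ^ k), (if Q (c + κ * (v : ℕ)) then 0 else p v) ≤ 1 / (k : ℝ) ^ U := by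
  obtain ⟨k₁, h1⟩ := scale_win b hC.two W e (min (ε / 2) 1) (by positivity) (min_le_right _ _)
  obtain ⟨k₀, h0⟩ := cls_lin hC A B U (e + 2 * W + 2) (ε / 2) (by positivity)
  refine ⟨k₀ + k₁, fun k hk N hN1 hN2 p hp c hc Q hdec hQ => ?_⟩
  obtain ⟨X, g1, g2, g3, g4, g5, g6, g7, g8⟩ := h1 k (by omega) N hN1 hN2
  have h2 := h0 k (by omega) X g1 g2 p hp c hc Q (fun y hy => by
    obtain ⟨α, β, γ, q1, q2, q3, q4, q5⟩ := hQ y hy
    refine ⟨α, β, γ - y, q1, q2, q3.trans g5, by rw [add_sub_cancel]; exact q4, fun hG => q5 ?_⟩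
    rw [add_sub_cancel] at hG
    refine win_of_good ε hε W (e + 2 * W + 2) X N α β γ q4.2.1 g3 g4 ?_ g7 g8 hG
    refine le_trans ?_ g6
    apply mul_le_mul_of_nonneg_right _ (by positivity)
    linarith [min_le_left (ε / 2) 1])
  refine le_trans (le_of_eq (sum_congr rfl fun v _ => ?_)) h2
  split_ifs <;> rfl

end Pool.Agent.L7h50.AB
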