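import Pool.Agent.L7h50.AB.L7
import Pool.Agent.L7h50.AB.Defs

set_option autoImplicit false

/-! The prime solutions of the linear equation `a p - b q = c`: the passage to the final definitions. -/

namespace Pool.Agent.L7h50.AB

open Finset Pool.Agent.H560R3.GB
open Pool.Agent.N625.DY (ClsV)

lemma solutions_eq (a b : ℕ) (ha : 1 ≤ a) (c : ℤ) (M M' : ℕ) : solutions a b c M M' = cntE a b c M M' := by
  classical
  unfold solutions cntE
  have ha0 : (a : ℤ) ≠ 0 := by exact_mod_cast (by omega : a ≠ 0)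
  have h1 : Set.InjOn Prod.snd {z : ℕ × ℕ | z.1.Prime ∧ z.2.Prime ∧ (a : ℤ) * z.1 - b * z.2 = c ∧ M < z.2 ∧ z.2 ≤ M'} := by
    rintro ⟨p, q⟩ hz ⟨p', q'⟩ hz' h
    simp only [Set.mem_setOf_eq] at hz hz' h
    subst h
    have : (a : ℤ) * p = a * p' := by linarith [hz.2.2.1, hz'.2.2.1]
    have h2 := mul_left_cancel₀ ha0 this
    have h3 : p = p' := by exact_mod_cast h2
    rw [h3]
  rw [← Set.ncard_image_of_injOn h1, ← Set.ncard_coe_finset]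
  congr 1
  ext q
  simp only [Set.mem_image, Set.mem_setOf_eq, Prod.exists, exists_eq_right, coe_filter, mem_Ioc]
  constructor
  · rintro ⟨p, h2, h3, h4, h5, h6⟩
    exact ⟨⟨h5, h6⟩, h3, p, h2, by linarith⟩
  · rintro ⟨⟨h5, h6⟩, h3, p, h2, h4⟩
    exact ⟨p, h2, h3, by linarith, h5, h6⟩

lemma density_eq (a b : ℕ) (c : ℤ) : density a b c = dE a b c := by
  unfold density dE sing
  rw [show ((a : ℤ) * b * c).natAbs = a * b * c.natAbs by
    rw [Int.natAbs_mul, Int.natAbs_mul, Int.natAbs_natCast, Int.natAbs_natCast]]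
  ring

lemma ok_of (a b : ℕ) (c : ℤ) (h : Admissible a b c) : Ok a b c := by
  obtain ⟨h1, h2, h3, h4, h5, h6, h7⟩ := h
  refine ⟨h1, h2, h3, h4, Int.isCoprime_iff_gcd_eq_one.2 h6, Int.isCoprime_iff_gcd_eq_one.2 h5, ?_⟩
  by_contra hcon
  apply h7
  have h8 : Odd ((a : ℤ) * b * c) := by
    rw [← Int.not_even_iff_odd, even_iff_two_dvd]
    exact hcon
  rw [Int.odd_mul, Int.odd_mul, Int.odd_coe_nat, Int.odd_coe_nat] at h8
  exact ⟨h8.1.1, h8.1.2, h8.2⟩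

lemma asPredicted_of (ε : ℝ) (W N a b : ℕ) (c : ℤ) (ha : 1 ≤ a) (h : WinE ε W N a b c) : AsPredicted ε W N a b c := by
  intro M M' h1 h2 h3
  rw [solutions_eq a b ha, density_eq]
  exact h M M' h1 h2 h3

/-- **The form used in the results.** -/
theorem cls_near {b : ℕ} {κ : ℤ} {C : ℕ → (ℕ → ℝ) → Prop} (hC : ClsV b κ C) (A B U W e : ℕ) (ε : ℝ) (hε : 0 < ε) :
    ∃ k₀ : ℕ, ∀ k : ℕ, k₀ ≤ k → ∀ N : ℕ, N ≤ b ^ k → (b : ℝ) ^ k ≤ (k : ℝ) ^ e * N → ∀ p, C k p →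
    ∀ c : ℤ, |c| ≤ B * (b : ℤ) ^ k → ∀ Q : ℤ → Prop, ∀ _ : DecidablePred Q, (∀ y, AllNear ε A W N y → Q y) →
    ∑ v ∈ range (b ^ k), (if Q (c + κ * (v : ℕ)) then 0 else p v) ≤ 1 / (k : ℝ) ^ U := by
  obtain ⟨k₀, h0⟩ := cls_win hC A B U W e ε hε
  refine ⟨k₀, fun k hk N hN1 hN2 p hp c hc Q hdec hQ => h0 k hk N hN1 hN2 p hp c hc Q hdec fun y hy => ?_⟩
  have h1 : ¬ AllNear ε A W N y := fun h => hy (hQ y h)
  unfold AllNear at h1
  push Not at h1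
  obtain ⟨α, β, γ, q1, q2, q3, q4, q5⟩ := h1
  refine ⟨α, β, γ, q1, q2, ?_, ok_of _ _ _ q4, fun h => q5 (asPredicted_of _ _ _ _ _ _ q4.1 h)⟩
  push_cast
  exact q3

end Pool.Agent.L7h50.AB
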